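import Pool.Statements.S00024
import Pool.Agent.MP_0f1eb7_ag.cyl.All

set_option autoImplicit false
open AlgebraicGeometry CategoryTheory CategoryTheory.Limits
open Pool Pool.MP_0f1eb7_ag

namespace Pool.Agent.S00024

/-- The negation of the preceding statement: Let X be quasi-projective over ℂ, flat of finite type over an affine complex variety S, with closed fibers over a nonempty open set isomorphic to affine n-space. Then some nonempty open U of S has f⁻¹(U) isomorphic to U × 𝔸ⁿ over U. -/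
theorem result :
    ¬ (∀ (n : ℕ) (A : Type) [CommRing A] [IsDomain A] [Algebra ℂ A] [Algebra.FiniteType ℂ A]
      (X : Scheme.{0}) (f : X ⟶ Spec (CommRingCat.of A)),
      Flat f → LocallyOfFiniteType f → QuasiCompact f →
      (∃ (B : Type) (_ : CommRing B) (_ : Algebra ℂ B) (𝒜 : ℕ → Submodule ℂ B)
          (_ : GradedAlgebra 𝒜),
        Algebra.FiniteType ℂ B ∧
        (∀ b ∈ 𝒜 0, ∃ c : ℂ, algebraMap ℂ B c = b) ∧
        ∃ i : X ⟶ Proj 𝒜, IsImmersion i) →
      (∃ V : (Spec (CommRingCat.of A)).Opens,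
        (V : Set (Spec (CommRingCat.of A))).Nonempty ∧
        ∀ s : Spec (CommRingCat.of A), s ∈ V →
          IsClosed ({s} : Set (Spec (CommRingCat.of A))) →
          Nonempty (pullback f ((Spec (CommRingCat.of A)).fromSpecResidueField s) ≅
            Spec (CommRingCat.of (MvPolynomial (Fin n) ℂ)))) →
      ∃ U : (Spec (CommRingCat.of A)).Opens,
        (U : Set (Spec (CommRingCat.of A))).Nonempty ∧
        ∃ e : (f ⁻¹ᵁ U).toScheme ≅
            pullback (U.ι ≫ Spec.map (CommRingCat.ofHom (algebraMap ℂ A)))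
              (Spec.map (CommRingCat.ofHom (algebraMap ℂ (MvPolynomial (Fin n) ℂ)))),
          e.hom ≫ pullback.fst _ _ = f ∣_ U) := by
  haveI := Pool.Agent.MP_0f1eb7_ag.Cyl.glue_flat Pool.Agent.MP_0f1eb7_ag.Cyl.all_flat
  haveI := Pool.Agent.MP_0f1eb7_ag.Cyl.glue_ft Pool.Agent.MP_0f1eb7_ag.Cyl.all_ft
  exact Pool.Agent.CYL.plumb 9 Pool.Agent.MP_0f1eb7_ag.Cyl.Rt Pool.Agent.MP_0f1eb7_ag.Cyl.Bt _
    Pool.Agent.MP_0f1eb7_ag.Cyl.glue_ne Pool.Agent.MP_0f1eb7_ag.Cyl.all_fib
    (Pool.Agent.MP_0f1eb7_ag.Cyl.glue_no Pool.Agent.MP_0f1eb7_ag.Cyl.all_red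
      Pool.Agent.MP_0f1eb7_ag.Cyl.all_mat)

end Pool.Agent.S00024
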