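import Pool.Statements.S01136
import Pool.Agent.MP_337e3e_al.Final

set_option autoImplicit false
open Pool Pool.MP_337e3e_al

namespace Pool.Agent.S01136

/-- The negation of the preceding statement: Thompson's group F, as PL maps of [0,1] generated by x0 and x1, has a finitely generated subgroup H equal to its closure (every piecewise-H element of F is in H) whose conjugacy problem on words in its generators is not computable. -/
theorem result :
    ¬ (∃ a b : Equiv.Perm ℝ,
    (∀ x : ℝ, a x = if x < 0 then x else if x ≤ 1/2 then x/2 else if x ≤ 3/4 then x - 1/4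
        else if x ≤ 1 then 2*x - 1 else x) ∧
    (∀ x : ℝ, b x = if x ≤ 1/2 then x else if x ≤ 3/4 then x/2 + 1/4 else if x ≤ 7/8 then x - 1/8
        else if x ≤ 1 then 2*x - 1 else x) ∧
    ∃ l : List (Equiv.Perm ℝ), ∃ H : Subgroup (Equiv.Perm ℝ),
      H = Subgroup.closure {g : Equiv.Perm ℝ | g ∈ l} ∧
      H ≤ Subgroup.closure ({a, b} : Set (Equiv.Perm ℝ)) ∧
      (∀ f ∈ Subgroup.closure ({a, b} : Set (Equiv.Perm ℝ)),
        (∃ n : ℕ, ∃ t : ℕ → ℝ, t 0 = 0 ∧ t n = 1 ∧ (∀ i < n, t i < t (i+1)) ∧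
          ∀ i < n, ∃ h ∈ H, ∀ x ∈ Set.Icc (t i) (t (i+1)), f x = h x) → f ∈ H) ∧
      ¬ ComputablePred (fun p : List (ℕ × Bool) × List (ℕ × Bool) =>
          ∃ c ∈ H,
            c * (p.1.map (fun q : ℕ × Bool =>
                if q.2 then l.getD q.1 1 else (l.getD q.1 1)⁻¹)).prod * c⁻¹
              = (p.2.map (fun q : ℕ × Bool =>
                if q.2 then l.getD q.1 1 else (l.getD q.1 1)⁻¹)).prod)) := by
  rintro ⟨a, b, ha, hb, l, H, hH, hle, hcl, hn⟩
  obtain ⟨C, rfl⟩ := Pool.Agent.MP_337e3e_al.exists_ctx ha hb hH hle hcl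
  exact hn (Pool.Agent.MP_337e3e_al.conj_computable hH)

end Pool.Agent.S01136
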