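import Pool.Statements.S01345
import Pool.Agent.MP_45783b_al.Main

set_option autoImplicit false
open Pool Pool.MP_45783b_al

namespace Pool.Agent.S01345

/-- For locally compact Hausdorff groups G and H with order-isomorphic lattices of closed subgroups: if every finite subset of G lies in a compact subgroup, then every finite subset of H lies in a compact subgroup. -/
theorem result :
    ∀ (G H : Type) [Group G] [TopologicalSpace G] [IsTopologicalGroup G]
      [LocallyCompactSpace G] [T2Space G]
      [Group H] [TopologicalSpace H] [IsTopologicalGroup H]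
      [LocallyCompactSpace H] [T2Space H],
      Nonempty ({K : Subgroup G // IsClosed (K : Set G)} ≃o
        {K : Subgroup H // IsClosed (K : Set H)}) →
      (∀ F : Finset G, ∃ K : Subgroup G, IsCompact (K : Set G) ∧ (↑F : Set G) ⊆ (K : Set G)) →
      (∀ F : Finset H, ∃ K : Subgroup H, IsCompact (K : Set H) ∧ (↑F : Set H) ⊆ (K : Set H)) := by
  intro G H _ _ _ _ _ _ _ _ _ _ ⟨φ⟩ hG
  exact Pool.Agent.MP_45783b_al.main
    (((Pool.Agent.MP_45783b_al.CS.isoSub G).trans φ).trans
      (Pool.Agent.MP_45783b_al.CS.isoSub H).symm) hG

end Pool.Agent.S01345
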