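import Pool.Statements.S01500
import Pool.Agent.MP_54e5d7_al.atc.All

set_option autoImplicit false
open scoped ENNReal
open Classical
open Pool Pool.MP_54e5d7_al

namespace Pool.Agent.S01500

/-- The negation of the preceding statement: For any group G whose finite subgroups have bounded order, with d the lcm of those orders, and any m×n matrix A over FG (ℚ⊆F⊆ℂ), d·(n−m+von Neumann dimension of the ℓ² kernel of right multiplication by A) is an integer. -/
theorem result :
    ¬ (∀ (G : Type) [Group G] (F : Subfield ℂ) (N : ℕ),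
    (∀ H : Subgroup G, Finite H → Nat.card H ≤ N) →
    ∀ d : ℕ, (∀ H : Subgroup G, Finite H → Nat.card H ∣ d) →
      (∀ e : ℕ, (∀ H : Subgroup G, Finite H → Nat.card H ∣ e) → d ∣ e) →
    ∀ (m n : ℕ) (A : Matrix (Fin m) (Fin n) (G →₀ ℂ)),
      (∀ i j g, A i j g ∈ F) →
      ∃ z : ℤ, (d : ℝ) * ((n : ℝ) - (m : ℝ) + ∑ i : Fin m,
        (1 - (Metric.infDist
          (lp.single 2 (i, (1 : G)) (1 : ℂ) : lp (fun _ : Fin m × G => ℂ) 2)
          {x : lp (fun _ : Fin m × G => ℂ) 2 | ∀ (j : Fin n) (g : G),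
            ∑ i' : Fin m, (A i' j).sum (fun h c => x (i', g * h⁻¹) * c) = 0}) ^ 2)) = z) := by
  exact Pool.Agent.MP_54e5d7_al.Atc.not_sac_all

end Pool.Agent.S01500
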