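import Pool.Statements.S01808
import Pool.Agent.MP_6b47b1_al.Derived

set_option autoImplicit false
open Pool Pool.MP_6b47b1_al
open Pool.Agent.MP_6b47b1_al

namespace Pool.Agent.S01808

/-- The negation of the preceding statement: There is a number d such that every finite soluble group having a presentation with n generators and n relators (for some n) has derived length at most d. -/
theorem result :
    ¬ (∃ d : ℕ, ∀ (G : Type) [Group G] [Finite G],
      (∃ n : ℕ, ∃ r : Fin n → FreeGroup (Fin n),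
          Nonempty (G ≃* PresentedGroup (Set.range r))) →
        IsSolvable G → derivedSeries G d = ⊥) := by
  rintro ⟨d, hd⟩
  obtain ⟨K, hK⟩ : ∃ K : ℕ, K + 1 = 2 * 2 ^ d := ⟨2 * 2 ^ d - 1, Nat.sub_add_cancel (by
    have := Nat.one_le_two_pow (n := d); omega)⟩
  obtain ⟨i, hi⟩ : ∃ i : ℕ, 3 ^ (K + 1) = 8 * i + 1 := by
    refine ⟨3 ^ (K + 1) / 8, ?_⟩
    have : 3 ^ (K + 1) % 8 = 1 := by
      rw [hK, pow_mul, Nat.pow_mod]; simp
    omega
  let x : FreeGroup (Fin 2) := FreeGroup.of 0
  let y : FreeGroup (Fin 2) := FreeGroup.of 1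
  let r : Fin 2 → FreeGroup (Fin 2) := ![(x * y * x) * (y * x * y)⁻¹,
    (y ^ 4 * x ^ (4 * i + 1)) ^ 2 * x ^ (8 * i + 1) * (x * y * x) ^ 2]
  let G := PresentedGroup (Set.range r)
  let a : G := PresentedGroup.of 0
  let b : G := PresentedGroup.of 1
  have hgen : Subgroup.closure {a, b} = ⊤ := by
    rw [← PresentedGroup.closure_range_of]
    congr 1
    ext g
    constructor
    · rintro (rfl | rfl)
      · exact ⟨0, rfl⟩
      · exact ⟨1, rfl⟩
    · rintro ⟨j, rfl⟩
      fin_cases j
      · exact Or.inl rfl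
      · exact Or.inr rfl
  have h0 : a * b * a = b * a * b := by
    have := PresentedGroup.one_of_mem (rels := Set.range r) ⟨0, rfl⟩
    simp only [r, Matrix.cons_val_zero, map_mul, map_inv] at this
    exact mul_inv_eq_one.1 this
  have h1 : (b ^ 4 * a ^ (4 * i + 1)) ^ 2 * a ^ (8 * i + 1) * (a * b * a) ^ 2 = 1 := by
    have := PresentedGroup.one_of_mem (rels := Set.range r) ⟨1, rfl⟩
    simp only [r, Matrix.cons_val_one, Matrix.cons_val_zero, map_mul, map_pow] at this
    exact this
  obtain ⟨hfin, hsol⟩ := step1 K i hi hgen h0 h1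
  have hbot := hd G ⟨2, r, ⟨MulEquiv.refl _⟩⟩ hsol
  let R := ZMod (3 ^ (K + 1))
  have hm : (8 * i + 1 : R) = 0 := by
    have h2 : ((8 * i + 1 : ℕ) : R) = 0 := (ZMod.natCast_eq_zero_iff _ _).2 (dvd_of_eq hi)
    rwa [Nat.cast_add, Nat.cast_mul, Nat.cast_one, Nat.cast_ofNat] at h2
  let φ : Fin 2 → Matrix.SpecialLinearGroup (Fin 2) R := ![up 1, lo (-1)]
  have hφ : ∀ w ∈ Set.range r, FreeGroup.lift φ w = 1 := by
    rintro _ ⟨j, rfl⟩
    fin_cases j
    · simp [r, x, y, φ, braid_mat]
    · simp only [r, x, y, φ, Fin.mk_one, Matrix.cons_val_one, Matrix.cons_val_zero, map_mul,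
        map_pow, FreeGroup.lift_apply_of, up_pow, lo_pow]
      have e1 : (((8 * i + 1 : ℕ) : R) * 1) = 0 := by
        rw [Nat.cast_add, Nat.cast_mul, Nat.cast_one, Nat.cast_ofNat, hm, zero_mul]
      have e2 : (((4 : ℕ) : R) * -1) = -4 := by push_cast; ring
      rw [e1, e2, up_zero, mul_one]
      apply rel_mat
      rw [Nat.cast_add, Nat.cast_mul, Nat.cast_one, Nat.cast_ofNat]
      linear_combination hm
  let f := PresentedGroup.toGroup hφ
  have h3 : IsNilpotent (3 : R) := ⟨K + 1, by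
    have : ((3 ^ (K + 1) : ℕ) : R) = 0 := ZMod.natCast_self _
    exact_mod_cast this⟩
  have key := up_mem_derived f (a := a) (b := b) (PresentedGroup.toGroup.of hφ)
    (PresentedGroup.toGroup.of hφ) h3 (fun t => ⟨t.val, ZMod.natCast_zmod_val t⟩) d 1
  rw [hbot, Subgroup.map_bot, Subgroup.mem_bot] at key
  have key2 : ((3 ^ (2 ^ d) : ℕ) : R) = 0 := by
    have := congrArg (fun M : Matrix.SpecialLinearGroup (Fin 2) R => M.1 0 1) key
    simpa [up] using this
  rw [ZMod.natCast_eq_zero_iff, Nat.pow_dvd_pow_iff_le_right (by norm_num)] at key2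
  have := Nat.one_le_two_pow (n := d)
  omega

end Pool.Agent.S01808
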