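import Pool.Statements.S01815
import Pool.Agent.MP_6bf536_al.Rep

set_option autoImplicit false
open Pool Pool.MP_6bf536_al

namespace Pool.Agent.S01815

/-- There is some m and a homomorphism from Aut(F_3) to GL(m, C) whose kernel is exactly the inner automorphisms, i.e. Out(F_3) has a faithful complex linear representation. -/
theorem result :
    ∃ m : ℕ, ∃ ρ : MulAut (FreeGroup (Fin 3)) →* Matrix.GeneralLinearGroup (Fin m) ℂ,
      ρ.ker = (MulAut.conj : FreeGroup (Fin 3) →* MulAut (FreeGroup (Fin 3))).range := by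
  obtain ⟨Φ, h⟩ := Pool.Agent.MP_6bf536_al.exists_rep
  refine ⟨_, (Matrix.GeneralLinearGroup.toLin'
    (Module.finBasis ℂ Pool.Agent.MP_6bf536_al.U)).symm.toMonoidHom.comp Φ, ?_⟩
  rw [← h]
  ext φ
  simp [MonoidHom.mem_ker]

end Pool.Agent.S01815
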