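import Pool.Statements.S01868
import Pool.Agent.MP_702fe9_al.h61.Step

set_option autoImplicit false
open Pool Pool.MP_702fe9_al

namespace Pool.Agent.S01868

/-- The negation of the preceding statement: For every prime p, every infinite group in which each nontrivial element survives in some finite p-group quotient (by a normal finite-index subgroup) has an infinite subgroup whose elements all commute. -/
theorem result :
    ¬ (∀ (p : ℕ), p.Prime →
      ∀ (G : Type) [Group G] [Infinite G],
        (∀ g : G, g ≠ 1 →
          ∃ N : Subgroup G, N.Normal ∧ N.FiniteIndex ∧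
            (∀ x : G, ∃ k : ℕ, x ^ (p ^ k) ∈ N) ∧ g ∉ N) →
        ∃ A : Subgroup G,
          (∀ x ∈ A, ∀ y ∈ A, x * y = y * x) ∧ (A : Set G).Infinite) := by
  intro h
  have : Fact (Nat.Prime 3) := ⟨Nat.prime_three⟩
  obtain ⟨M, hM, hinf, hres, -, hab⟩ := Pool.Agent.MP_702fe9_al.H61.main (p := 3) le_rfl
  obtain ⟨A, hA, hAi⟩ := h 3 Nat.prime_three _ hres
  exact hAi (hab A hA)

end Pool.Agent.S01868
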