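import Pool.Statements.S02133
import Pool.Agent.MP_841a27_al.PolyH
import Pool.Agent.MP_841a27_al.QT
import Pool.Agent.MP_841a27_al.Fin
import Pool.Agent.MP_841a27_al.StepH

set_option autoImplicit false
open Pool Pool.MP_841a27_al

namespace Pool.Agent.S02133

/-- For any square matrices A, B with nonnegative rational entries, if A^l=ST, B^l=TS, AS=SB, TA=BT for some l≥1 and nonnegative rational S,T, then A and B are joined by a finite chain of elementary strong shift equivalences over nonnegative rationals. -/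
theorem result :
    ∀ (m n : ℕ) (A : Matrix (Fin (m + 1)) (Fin (m + 1)) NNRat)
      (B : Matrix (Fin (n + 1)) (Fin (n + 1)) NNRat),
      (∃ ℓ : ℕ, 1 ≤ ℓ ∧
        ∃ S : Matrix (Fin (m + 1)) (Fin (n + 1)) NNRat,
        ∃ T : Matrix (Fin (n + 1)) (Fin (m + 1)) NNRat,
          A ^ ℓ = S * T ∧ B ^ ℓ = T * S ∧ A * S = S * B ∧ T * A = B * T) →
      Relation.ReflTransGen
        (fun X Y : (Σ k : ℕ, Matrix (Fin (k + 1)) (Fin (k + 1)) NNRat) =>
          ∃ S : Matrix (Fin (X.1 + 1)) (Fin (Y.1 + 1)) NNRat,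
          ∃ T : Matrix (Fin (Y.1 + 1)) (Fin (X.1 + 1)) NNRat,
            X.2 = S * T ∧ Y.2 = T * S)
        ⟨m, A⟩ ⟨n, B⟩ := by
  refine Pool.Agent.MP_841a27_al.final_of ?_
  intro V _ _ S k0 P hP K _ _ _ ε η hI
  have h1 : Pool.Agent.MP_841a27_al.Sm ε 1 := by simpa using hI.2.2.2 0
  exact Pool.Agent.MP_841a27_al.STH.step S hI.1 h1 hP.2.1
    (Pool.Agent.MP_841a27_al.LCT.rlpoly hI.1 h1 hP.2.1
      (Pool.Agent.MP_841a27_al.LCT.rl
        (Pool.Agent.MP_841a27_al.qt_of_sk1 Pool.Agent.MP_841a27_al.sk1) hP hI))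

end Pool.Agent.S02133
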