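import Pool.Statements.S02324
import Pool.Agent.MP_93f6c2_al.Limit

set_option autoImplicit false
open Pool Pool.MP_93f6c2_al

namespace Pool.Agent.S02324

/-- The negation of the preceding statement: For every commutative ring Φ and Φ-algebra A that is right alternative, has every element with some vanishing right power, and satisfies ACC on Φ-subalgebras, all left-normed products of some fixed length vanish in A. -/
theorem result :
    ¬ (∀ (Φ : Type) [CommRing Φ] (A : Type) [NonUnitalNonAssocRing A] [Module Φ A]
      [IsScalarTower Φ A A] [SMulCommClass Φ A A],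
      (∀ x y : A, (y * x) * x = y * (x * x)) →
      (∀ x : A, ∃ n : ℕ, List.foldl (fun u v => u * v) x (List.replicate n x) = 0) →
      WellFoundedGT (NonUnitalSubalgebra Φ A) →
      ∃ n : ℕ, ∀ (a : A) (l : List A), l.length = n →
        List.foldl (fun u v => u * v) a l = 0) := by
  intro h
  let K := AlgebraicClosure (ZMod 2)
  have : Countable K := by
    rw [← Cardinal.mk_le_aleph0_iff]
    exact (Algebra.IsAlgebraic.cardinalMk_le_max (ZMod 2) K).trans
      (max_le (Cardinal.mk_le_aleph0) le_rfl)
  let T := Pool.Agent.MP_93f6c2_al.tower K
  obtain ⟨n, hn⟩ := h K T.Alg T.ra T.nil T.acc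
  exact T.not_finite (Pool.Agent.MP_93f6c2_al.finite_of_right_nilpotent T.acc n hn)

end Pool.Agent.S02324
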