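import Pool.Statements.S02470
import Pool.Agent.MP_9bf990_al.Main

set_option autoImplicit false
open Pool Pool.MP_9bf990_al

namespace Pool.Agent.S02470

/-- The negation of the preceding statement: There exists a nonempty, isomorphism-closed, quotient- and subdirect-product-closed, Frattini-saturated class F of finite groups that is not subgroup-closed, such that in every finite group the F-subnormal subgroups (maximal chains from G with each step containing the F-residual) are closed under ⊓ -/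
theorem result :
    ¬ (∃ F : (G : Type) → [Group G] → Prop,
      (∀ (G : Type) [Group G], F G → Finite G) ∧
      (∀ (G H : Type) [Group G] [Group H], Nonempty (G ≃* H) → F G → F H) ∧
      F Unit ∧
      (∀ (G : Type) [Group G] [Finite G] (N : Subgroup G) [N.Normal], F G → F (G ⧸ N)) ∧
      (∀ (G : Type) [Group G] [Finite G] (N₁ N₂ : Subgroup G) [N₁.Normal] [N₂.Normal],
          F (G ⧸ N₁) → F (G ⧸ N₂) → F (G ⧸ (N₁ ⊓ N₂))) ∧
      (∀ (G : Type) [Group G] [Finite G], F (G ⧸ frattini G) → F G) ∧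
      ¬ (∀ (G : Type) [Group G] [Finite G], F G → ∀ H : Subgroup G, F H) ∧
      (∀ (G : Type) [Group G] [Finite G] (T : Set (Subgroup G)),
        T = {H : Subgroup G | ∀ S : Set (Subgroup G), ⊤ ∈ S →
              (∀ K ∈ S, ∀ L : Subgroup G, L < K →
                (∀ M : Subgroup G, L ≤ M → M ≤ K → M = L ∨ M = K) →
                (∃ N : Subgroup K, ∃ _ : N.Normal, F (K ⧸ N) ∧ N ≤ L.subgroupOf K) →
                L ∈ S) →
              H ∈ S} →
        ∀ A ∈ T, ∀ B ∈ T, A ⊓ B ∈ T ∧ A ⊔ B ∈ T)) := by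
  rintro ⟨F, hfin, hiso, hunit, hquot, hsub, hsat, hnot, hlat⟩
  let 𝔉 : Pool.Agent.MP_9bf990_al.SatForm := ⟨F, hfin, hiso, hunit, hquot, hsub, hsat⟩
  apply hnot
  intro G _ _ hG H
  refine 𝔉.hereditary ?_ hG H
  intro X _ _ A B hA hB
  have key : ∀ P : Subgroup X, 𝔉.Sn P ↔ ∀ S : Set (Subgroup X), ⊤ ∈ S →
      (∀ K ∈ S, ∀ L : Subgroup X, L < K →
        (∀ M : Subgroup X, L ≤ M → M ≤ K → M = L ∨ M = K) →
        (∃ N : Subgroup K, ∃ _ : N.Normal, F (K ⧸ N) ∧ N ≤ L.subgroupOf K) → L ∈ S) → P ∈ S := by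
    intro P
    constructor
    · intro hP S hS hstep
      induction hP with
      | top => exact hS
      | step K L _ h1 h2 h3 ih => exact hstep K ih L h1 h2 h3
    · intro h
      exact h {P | 𝔉.Sn P} Pool.Agent.MP_9bf990_al.SatForm.Sn.top
        fun K hK L h1 h2 h3 => Pool.Agent.MP_9bf990_al.SatForm.Sn.step K L hK h1 h2 h3
  have := hlat X _ rfl A ((key A).1 hA) B ((key B).1 hB)
  exact ⟨(key _).2 this.1, (key _).2 this.2⟩

end Pool.Agent.S02470
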