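import Pool.Statements.S04151
import Pool.Agent.MP_29b5d3_an.GE.AllO

set_option autoImplicit false
open MeasureTheory
open Pool Pool.MP_29b5d3_an

namespace Pool.Agent.S04151

/-- For n ≥ 2 and K > 1, the least upper bound of all p ≥ n such that every K-quasiregular map on an open set of ℝⁿ has weak derivative locally in L^p is exactly nK/(K−1). -/
theorem result :
  ∀ n : ℕ, 2 ≤ n → ∀ K : ℝ, 1 < K →
    IsLUB {p : ℝ | (n : ℝ) ≤ p ∧
      ∀ (Ω : Set (EuclideanSpace ℝ (Fin n)))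
        (f : EuclideanSpace ℝ (Fin n) → EuclideanSpace ℝ (Fin n))
        (Df : EuclideanSpace ℝ (Fin n) → (EuclideanSpace ℝ (Fin n) →L[ℝ] EuclideanSpace ℝ (Fin n))),
        IsOpen Ω → ContinuousOn f Ω →
        (∀ C : Set (EuclideanSpace ℝ (Fin n)), IsCompact C → C ⊆ Ω →
          MemLp Df (n : ENNReal) (volume.restrict C)) →
        (∀ φ : EuclideanSpace ℝ (Fin n) → ℝ,
          ContDiff ℝ ((⊤ : ℕ∞) : WithTop ℕ∞) φ → HasCompactSupport φ → tsupport φ ⊆ Ω →
          ∀ v : EuclideanSpace ℝ (Fin n),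
            ∫ x, (fderiv ℝ φ x v) • f x = -∫ x, φ x • Df x v) →
        (∀ᵐ x ∂(volume.restrict Ω),
          ‖Df x‖ ^ n ≤ K * LinearMap.det
            ((Df x : EuclideanSpace ℝ (Fin n) →L[ℝ] EuclideanSpace ℝ (Fin n)) :
              EuclideanSpace ℝ (Fin n) →ₗ[ℝ] EuclideanSpace ℝ (Fin n))) →
        ∀ C : Set (EuclideanSpace ℝ (Fin n)), IsCompact C → C ⊆ Ω →
          MemLp Df (ENNReal.ofReal p) (volume.restrict C)}
      ((n : ℝ) * K / (K - 1)) := by
  intro n hn K hK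
  exact (Pool.Agent.MP_29b5d3_an.GO.sharp n hn).unf K hK

end Pool.Agent.S04151
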