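import Pool.Statements.S04348
import Pool.Agent.MP_37b4fc_an.Counter

set_option autoImplicit false
open MeasureTheory
open scoped ENNReal
open Pool Pool.MP_37b4fc_an

namespace Pool.Agent.S04348

/-- The negation of the preceding statement: For Banach couples A1⊂A0, B1⊂B0 and U Lipschitz A0→B0, mapping A1 to B1 with linear bound and continuously, U is continuous from the real interpolation space (A0,A1)θ,p;K to (B0,B1)θ,p;K for all 0<θ<1, 1≤p≤∞. -/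
theorem result :
    ¬ (∀ (E0 E1 F0 F1 : Type)
      [NormedAddCommGroup E0] [NormedSpace ℝ E0] [CompleteSpace E0]
      [NormedAddCommGroup E1] [NormedSpace ℝ E1] [CompleteSpace E1]
      [NormedAddCommGroup F0] [NormedSpace ℝ F0] [CompleteSpace F0]
      [NormedAddCommGroup F1] [NormedSpace ℝ F1] [CompleteSpace F1]
      (ιA : E1 →L[ℝ] E0) (ιB : F1 →L[ℝ] F0),
      Function.Injective ιA → Function.Injective ιB →
      ∀ (U : E0 → F0) (V : E1 → F1) (M0 M1 : ℝ),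
        (∀ a b : E0, ‖U a - U b‖ ≤ M0 * ‖a - b‖) →
        (∀ x : E1, U (ιA x) = ιB (V x)) →
        (∀ x : E1, ‖V x‖ ≤ M1 * ‖x‖) →
        Continuous V →
        ∀ θ : ℝ, 0 < θ → θ < 1 → ∀ p : ℝ≥0∞, 1 ≤ p →
        ∀ a : E0,
          eLpNorm (fun t : ℝ => t ^ (-θ) * ⨅ y : E1, (‖a - ιA y‖ + t * ‖y‖)) p
            ((volume.restrict (Set.Ioi (0:ℝ))).withDensity (fun t => ENNReal.ofReal t⁻¹)) < ∞ →
          ∀ ε : ℝ≥0∞, 0 < ε → ∃ δ : ℝ≥0∞, 0 < δ ∧ ∀ b : E0,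
            eLpNorm (fun t : ℝ => t ^ (-θ) * ⨅ y : E1, (‖b - ιA y‖ + t * ‖y‖)) p
              ((volume.restrict (Set.Ioi (0:ℝ))).withDensity (fun t => ENNReal.ofReal t⁻¹)) < ∞ →
            eLpNorm (fun t : ℝ => t ^ (-θ) * ⨅ y : E1, (‖(b - a) - ιA y‖ + t * ‖y‖)) p
              ((volume.restrict (Set.Ioi (0:ℝ))).withDensity (fun t => ENNReal.ofReal t⁻¹)) < δ →
            eLpNorm (fun t : ℝ => t ^ (-θ) * ⨅ z : F1, (‖(U b - U a) - ιB z‖ + t * ‖z‖)) p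
              ((volume.restrict (Set.Ioi (0:ℝ))).withDensity (fun t => ENNReal.ofReal t⁻¹)) < ε) := by
  intro h
  have h0 : (0 : ℝ) < 1 / 2 := by norm_num
  have h1 : (1 / 2 : ℝ) < 1 := by norm_num
  exact Pool.Agent.MP_37b4fc_an.discont.{0} h0 h1
    (h Pool.Agent.MP_37b4fc_an.X.{0} Pool.Agent.MP_37b4fc_an.X.{0}
      Pool.Agent.MP_37b4fc_an.X.{0} Pool.Agent.MP_37b4fc_an.X.{0}
      (Pool.Agent.MP_37b4fc_an.inc.{0}.restrictScalars ℝ)
      (Pool.Agent.MP_37b4fc_an.inc.{0}.restrictScalars ℝ)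
      Pool.Agent.MP_37b4fc_an.inc_injective Pool.Agent.MP_37b4fc_an.inc_injective
      (Pool.Agent.MP_37b4fc_an.UU (1 / 2)) (Pool.Agent.MP_37b4fc_an.VV (1 / 2)) 1 1
      (Pool.Agent.MP_37b4fc_an.UU_lip _) (Pool.Agent.MP_37b4fc_an.UU_inc _)
      (Pool.Agent.MP_37b4fc_an.VV_le _) (Pool.Agent.MP_37b4fc_an.VV_cont h1)
      (1 / 2) h0 h1 ∞ le_top (Pool.Agent.MP_37b4fc_an.pt (1 / 2) h0 0)
      (Pool.Agent.MP_37b4fc_an.pt_mem h0 h1 0) (ENNReal.ofReal (1 / 2))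
      (ENNReal.ofReal_pos.mpr h0))

end Pool.Agent.S04348
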