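import Pool.Statements.S05148
import Pool.Agent.MP_7ca887_an.Main

set_option autoImplicit false
open scoped ENNReal
open Pool Pool.MP_7ca887_an

namespace Pool.Agent.S05148

/-- The negation of the preceding statement: For every p with 1 ≤ p < ∞ and p ≠ 2, the relation of linear isomorphism between closed subspaces of real ℓ_p is Borel in the square of the Effros Borel structure on the closed subspaces. -/
theorem result :
    ¬ (∀ (p : ℝ≥0∞) [Fact (1 ≤ p)], p ≠ ⊤ → p ≠ 2 →
      ∀ M : MeasurableSpace
          {S : Submodule ℝ (lp (fun _ : ℕ => ℝ) p) //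
            IsClosed (S : Set (lp (fun _ : ℕ => ℝ) p))},
        M = MeasurableSpace.generateFrom
          {A | ∃ U : Set (lp (fun _ : ℕ => ℝ) p), IsOpen U ∧
            A = {S | ((S.1 : Set (lp (fun _ : ℕ => ℝ) p)) ∩ U).Nonempty}} →
        @MeasurableSet _ (M.prod M)
          {x | Nonempty (↥x.1.1 ≃L[ℝ] ↥x.2.1)}) := by
  intro h
  exact MP_7ca887_an.not_borel _ rfl (h 1 (by simp) (by norm_num) _ rfl)

end Pool.Agent.S05148
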