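import Pool.Statements.S05812
import Pool.Agent.MP_ae7bf1_an.Haar

set_option autoImplicit false
open MeasureTheory
open Pool Pool.MP_ae7bf1_an

namespace Pool.Agent.S05812

/-- The negation of the preceding statement: For every k, every probability space, and measure-preserving maps T_ε indexed by ε in {0,1}^k (not necessarily commuting), any set A of positive measure has positive n in ℕ^k with the intersection over ε of T_ε^{-(ε·n)}A of positive measure. -/
theorem result :
    ¬ (∀ (k : ℕ) (X : Type) [MeasurableSpace X] (μ : Measure X) [IsProbabilityMeasure μ]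
      (T : (Fin k → Fin 2) → X → X),
      (∀ ε, MeasurePreserving (T ε) μ μ) →
      ∀ A : Set X, MeasurableSet A → 0 < μ A →
        ∃ n : Fin k → ℕ, (∀ i, 0 < n i) ∧
          0 < μ (⋂ ε : Fin k → Fin 2, (T ε)^[∑ i, ((ε i : ℕ) * n i)] ⁻¹' A)) := by
  intro h
  obtain ⟨n, hn, hpos⟩ := h Pool.Agent.MP_ae7bf1_an.kk
    (Pool.Agent.MP_ae7bf1_an.KK × Pool.Agent.MP_ae7bf1_an.KK)
    (Pool.Agent.MP_ae7bf1_an.muK.prod Pool.Agent.MP_ae7bf1_an.muK)
    Pool.Agent.MP_ae7bf1_an.TT Pool.Agent.MP_ae7bf1_an.mp_TT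
    (Prod.fst ⁻¹' Pool.Agent.MP_ae7bf1_an.UU)
    (measurable_fst Pool.Agent.MP_ae7bf1_an.measurableSet_UU)
    (by
      rw [(measurePreserving_fst (μ := Pool.Agent.MP_ae7bf1_an.muK)
        (ν := Pool.Agent.MP_ae7bf1_an.muK)).measure_preimage
          Pool.Agent.MP_ae7bf1_an.measurableSet_UU.nullMeasurableSet]
      exact Pool.Agent.MP_ae7bf1_an.meas_UU_pos)
  rw [Pool.Agent.MP_ae7bf1_an.meas_inter_zero n hn] at hpos
  exact lt_irrefl _ hpos

end Pool.Agent.S05812
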