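import Pool.Statements.S06006

set_option autoImplicit false
open MeasureTheory
open Pool Pool.MP_c09e54_an

namespace Pool.Agent.S06006

/-- There is a compact subset of the line with empty interior and positive measure. -/
theorem exists_fat : ∃ A : Set ℝ, IsCompact A ∧ interior A = ∅ ∧ volume A ≠ 0 := by
  have hQ : volume (Set.range ((↑) : ℚ → ℝ)) < 1 := by
    rw [(Set.countable_range _).measure_zero]
    exact zero_lt_one
  obtain ⟨U, hQU, hUo, hU⟩ := Set.exists_isOpen_lt_of_lt _ _ hQ
  refine ⟨Set.Icc 0 1 \ U, isCompact_Icc.diff hUo, ?_, ?_⟩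
  · rw [interior_eq_empty_iff_dense_compl]
    refine (Rat.denseRange_cast (𝕜 := ℝ)).mono ?_
    intro x hx hx'
    exact hx'.2 (hQU hx)
  · intro h0
    have h1 : volume (Set.Icc (0 : ℝ) 1) ≤ volume (Set.Icc (0 : ℝ) 1 \ U) + volume U := by
      refine le_trans (measure_mono ?_) (measure_union_le _ _)
      intro x hx
      by_cases hxU : x ∈ U
      · exact Or.inr hxU
      · exact Or.inl ⟨hx, hxU⟩
    rw [h0, zero_add, Real.volume_Icc] at h1
    simp only [sub_zero, ENNReal.ofReal_one] at h1
    exact absurd hU (not_lt.mpr h1)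

/-- An isometric copy of a set with empty interior has empty interior. -/
theorem interior_image_eq_empty {A : Set ℝ} (hA : interior A = ∅) {f : ℝ → ℝ}
    (hf : Isometry f) : interior (f '' A) = ∅ := by
  rw [Set.eq_empty_iff_forall_notMem]
  intro y hy
  obtain ⟨x, -, rfl⟩ := interior_subset hy
  have hopen : IsOpen (f ⁻¹' interior (f '' A)) := isOpen_interior.preimage hf.continuous
  have hsub : f ⁻¹' interior (f '' A) ⊆ A := by
    intro z hz
    obtain ⟨w, hw, hwz⟩ := interior_subset hz
    rwa [← hf.injective hwz]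
  have : x ∈ interior A := interior_maximal hsub hopen hy
  rw [hA] at this
  exact this

/-- The negation of the preceding statement: Any two bounded Lebesgue measurable subsets of the reals of equal measure become, after deleting null sets, equidecomposable: finitely many disjoint measurable pieces of one, moved by isometries of the line, exactly tile the other. -/
theorem result :
    ¬ (∀ A B : Set ℝ, NullMeasurableSet A volume → NullMeasurableSet B volume →
      Bornology.IsBounded A → Bornology.IsBounded B → volume A = volume B →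
      ∃ E₁ E₂ : Set ℝ, volume E₁ = 0 ∧ volume E₂ = 0 ∧
        ∃ (n : ℕ) (P : Fin n → Set ℝ) (f : Fin n → ℝ → ℝ),
          (∀ i, NullMeasurableSet (P i) volume) ∧
          (∀ i, Isometry (f i)) ∧
          Pairwise (fun i j => Disjoint (P i) (P j)) ∧
          Pairwise (fun i j => Disjoint (f i '' P i) (f j '' P j)) ∧
          (⋃ i, P i) = A \ E₁ ∧
          (⋃ i, f i '' P i) = B \ E₂) := by
  intro h
  obtain ⟨A, hAc, hAi, hA0⟩ := exists_fat
  have hAfin : volume A ≠ ⊤ := hAc.measure_lt_top.ne
  set m : ℝ := (volume A).toReal with hm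
  have hmpos : 0 < m := ENNReal.toReal_pos hA0 hAfin
  have hvol : volume A = volume (Set.Ioo (0 : ℝ) m) := by
    rw [Real.volume_Ioo, sub_zero, hm, ENNReal.ofReal_toReal hAfin]
  obtain ⟨E₁, E₂, -, hE₂, n, P, f, -, hf, -, -, hP, hfP⟩ :=
    h A (Set.Ioo 0 m) hAc.measurableSet.nullMeasurableSet
      measurableSet_Ioo.nullMeasurableSet hAc.isBounded (Metric.isBounded_Ioo 0 m) hvol
  -- the finite union of the isometric copies of A
  set K : Set ℝ := ⋃ i, f i '' A with hK
  have hcl : ∀ i, IsClosed (f i '' A) := fun i => (hAc.image (hf i).continuous).isClosed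
  have hKcl : IsClosed K := isClosed_iUnion_of_finite hcl
  have hKd : Dense Kᶜ := by
    rw [hK, Set.compl_iUnion]
    refine dense_iInter_of_isOpen (fun i => (hcl i).isOpen_compl) (fun i => ?_)
    rw [← interior_eq_empty_iff_dense_compl]
    exact interior_image_eq_empty hAi (hf i)
  have hsub : Set.Ioo 0 m \ E₂ ⊆ K := by
    rw [← hfP]
    refine Set.iUnion_mono fun i => Set.image_mono ?_
    intro x hx
    have : x ∈ ⋃ j, P j := Set.mem_iUnion.mpr ⟨i, hx⟩
    rw [hP] at this
    exact this.1
  -- the nonempty open set of points of the interval outside K lies in the null set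
  have hopen : IsOpen (Set.Ioo 0 m ∩ Kᶜ) := isOpen_Ioo.inter hKcl.isOpen_compl
  have hne : (Set.Ioo 0 m ∩ Kᶜ).Nonempty :=
    hKd.inter_open_nonempty _ isOpen_Ioo (Set.nonempty_Ioo.mpr hmpos)
  have hin : Set.Ioo 0 m ∩ Kᶜ ⊆ E₂ := by
    intro x hx
    by_contra hxE
    exact hx.2 (hsub ⟨hx.1, hxE⟩)
  have hpos : 0 < volume (Set.Ioo 0 m ∩ Kᶜ) := hopen.measure_pos volume hne
  exact hpos.ne' (measure_mono_null hin hE₂)

end Pool.Agent.S06006
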