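import Pool.Statements.S06060
import Pool.Agent.MP_c45dcf_an.Core
import Pool.Agent.MP_c45dcf_an.Transfer

set_option autoImplicit false
open scoped Pointwise
open Pool Pool.MP_c45dcf_an

namespace Pool.Agent.S06060

/-- The negation of the preceding statement: There is one function f such that, in every dimension n, if two origin-symmetric convex bodies have all sections by subspaces of dimension n/2 (rounded down) within Banach–Mazur distance b, then the bodies are within Banach–Mazur distance f(b). -/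
theorem result :
    ¬ (∃ f : ℝ → ℝ, ∀ (n : ℕ) (K L : Set (EuclideanSpace ℝ (Fin n))) (b : ℝ),
    0 < b →
    Convex ℝ K → IsCompact K → (interior K).Nonempty → (∀ x ∈ K, -x ∈ K) →
    Convex ℝ L → IsCompact L → (interior L).Nonempty → (∀ x ∈ L, -x ∈ L) →
    (∀ E : Submodule ℝ (EuclideanSpace ℝ (Fin n)), Module.finrank ℝ E = n / 2 →
      ∀ t : ℝ, b < t → ∃ T : E ≃ₗ[ℝ] E,
        T '' {x : E | (x : EuclideanSpace ℝ (Fin n)) ∈ K} ⊆
            {x : E | (x : EuclideanSpace ℝ (Fin n)) ∈ L} ∧
        {x : E | (x : EuclideanSpace ℝ (Fin n)) ∈ L} ⊆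
            t • (T '' {x : E | (x : EuclideanSpace ℝ (Fin n)) ∈ K})) →
    ∃ T : EuclideanSpace ℝ (Fin n) ≃ₗ[ℝ] EuclideanSpace ℝ (Fin n),
      T '' K ⊆ L ∧ L ⊆ f b • (T '' K)) := by
  exact Pool.Agent.MP_c45dcf_an.final_of_core Pool.Agent.MP_c45dcf_an.coreStmt

end Pool.Agent.S06060
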