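import Pool.Statements.S06275
import Pool.Agent.MP_d4b492_an.Init

set_option autoImplicit false
open Pool Pool.MP_d4b492_an

namespace Pool.Agent.S06275

/-- Every map from the standard 1/3 Sierpiński carpet in the unit square into itself that is bi-Lipschitz (distances distorted by at most a bounded factor both ways) agrees on the carpet with some affine map of the plane. -/
theorem result :
    ∀ S : Set (ℝ × ℝ),
      S = {p : ℝ × ℝ | 0 ≤ p.1 ∧ p.1 ≤ 1 ∧ 0 ≤ p.2 ∧ p.2 ≤ 1 ∧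
        ∀ n : ℕ, ∀ i j : ℤ,
          ¬ (((3 * (i : ℝ) + 1) / 3 ^ (n + 1) < p.1 ∧ p.1 < (3 * (i : ℝ) + 2) / 3 ^ (n + 1)) ∧
             ((3 * (j : ℝ) + 1) / 3 ^ (n + 1) < p.2 ∧ p.2 < (3 * (j : ℝ) + 2) / 3 ^ (n + 1)))} →
      ∀ f : ℝ × ℝ → ℝ × ℝ,
        Set.MapsTo f S S →
        (∃ K : ℝ, 0 < K ∧ ∀ p ∈ S, ∀ q ∈ S,
            dist p q ≤ K * dist (f p) (f q) ∧ dist (f p) (f q) ≤ K * dist p q) →
        ∃ A : AffineMap ℝ (ℝ × ℝ) (ℝ × ℝ), ∀ p ∈ S, f p = A p := by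
  intro S hS f hf ⟨K, _, hK⟩
  have hmid : ∀ (n : ℕ) (x : ℝ), Pool.Agent.MP_d4b492_an.mid (3 ^ n * x) ↔
      ∃ i : ℤ, (3 * (i : ℝ) + 1) / 3 ^ (n + 1) < x ∧ x < (3 * (i : ℝ) + 2) / 3 ^ (n + 1) := by
    intro n x
    have h3 : (0 : ℝ) < 3 ^ (n + 1) := by positivity
    refine exists_congr fun i => ?_
    rw [div_lt_iff₀ h3, lt_div_iff₀ h3, pow_succ]
    constructor <;> rintro ⟨a, b⟩ <;> constructor <;> linarith
  have e : S = Pool.Agent.MP_d4b492_an.S := by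
    rw [hS]
    ext p
    simp only [Pool.Agent.MP_d4b492_an.S, Pool.Agent.MP_d4b492_an.W, Pool.Agent.MP_d4b492_an.P,
      Set.mem_ofPred_eq, hmid]
    constructor
    · rintro ⟨a, b, c, d, h⟩
      exact ⟨fun n ⟨⟨i, hi⟩, j, hj⟩ => h n i j ⟨hi, hj⟩, a, b, c, d⟩
    · rintro ⟨h, a, b, c, d⟩
      exact ⟨a, b, c, d, fun n i j ⟨hi, hj⟩ => h n ⟨⟨i, hi⟩, j, hj⟩⟩
  subst e
  obtain ⟨a, b, c, d, e, e', H⟩ := Pool.Agent.MP_d4b492_an.aff_of_bilip (K := K) (f := f)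
    (fun p hp => (hf hp).1) (fun p hp q hq => (hK p hp q hq).1)
    (fun p hp q hq => (hK p hp q hq).2)
  refine ⟨((a • LinearMap.fst ℝ ℝ ℝ + b • LinearMap.snd ℝ ℝ ℝ).prod
    (c • LinearMap.fst ℝ ℝ ℝ + d • LinearMap.snd ℝ ℝ ℝ)).toAffineMap +
      AffineMap.const ℝ (ℝ × ℝ) (e, e'), fun p hp => ?_⟩
  rw [H p hp]
  simp

end Pool.Agent.S06275
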