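import Pool.Statements.S06363
import Pool.Agent.MP_da42b8_an.Main

set_option autoImplicit false
open Pool Pool.MP_da42b8_an

namespace Pool.Agent.S06363

/-- For every simple planar quadrilateral region of area 1, 1/μ1+1/μ2 (first two nonzero Neumann eigenvalues, defined by min-max Rayleigh quotients) is at least its value for the unit square. -/
theorem result :
  ∀ μ : ℕ → Set (EuclideanSpace ℝ (Fin 2)) → ℝ,
    (∀ (k : ℕ) (Ω : Set (EuclideanSpace ℝ (Fin 2))), μ k Ω =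
      sInf {r : ℝ | ∃ f : Fin (k + 1) → EuclideanSpace ℝ (Fin 2) → ℝ,
        (∀ i, ContDiff ℝ 1 (f i)) ∧
        (∀ t : Fin (k + 1) → ℝ, t ≠ 0 → 0 < ∫ x in Ω, (∑ i, t i * f i x) ^ 2) ∧
        r = sSup {q : ℝ | ∃ t : Fin (k + 1) → ℝ, t ≠ 0 ∧
          q = (∫ x in Ω, ‖fderiv ℝ (fun y => ∑ i, t i * f i y) x‖ ^ 2) /
              (∫ x in Ω, (∑ i, t i * f i x) ^ 2)}}) →
    ∀ (a b c d : EuclideanSpace ℝ (Fin 2)) (Ω : Set (EuclideanSpace ℝ (Fin 2))),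
      ¬ Collinear ℝ {a, b, c} → ¬ Collinear ℝ {b, c, d} →
      ¬ Collinear ℝ {c, d, a} → ¬ Collinear ℝ {d, a, b} →
      Disjoint (segment ℝ a b) (segment ℝ c d) →
      Disjoint (segment ℝ b c) (segment ℝ d a) →
      IsOpen Ω → Bornology.IsBounded Ω →
      frontier Ω = segment ℝ a b ∪ segment ℝ b c ∪ segment ℝ c d ∪ segment ℝ d a →
      MeasureTheory.volume Ω = 1 →
      1 / μ 1 {x : EuclideanSpace ℝ (Fin 2) | ∀ i, 0 < x i ∧ x i < 1}
        + 1 / μ 2 {x : EuclideanSpace ℝ (Fin 2) | ∀ i, 0 < x i ∧ x i < 1}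
        ≤ 1 / μ 1 Ω + 1 / μ 2 Ω := by
  intro μ hμ a b c d Ω h1 h2 h3 h4 s1 s2 ho hb hf hv
  have e : ∀ k S, μ k S = Pool.Agent.MP_da42b8_an.mu k S := hμ
  simp only [e]
  exact Pool.Agent.MP_da42b8_an.square_value.trans
    (Pool.Agent.MP_da42b8_an.quadrilateral_bound h1 h2 h3 h4 s1 s2 ho hb hf hv)

end Pool.Agent.S06363
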