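import Pool.Statements.S06568
import Pool.Agent.MP_eb85b6_an.Lake

set_option autoImplicit false
open Pool Pool.MP_eb85b6_an

namespace Pool.Agent.S06568

/-- The negation of the preceding statement: For every real or complex Banach space X and bounded operator T: if the vectors whose return sets to each neighbourhood have positive upper density are dense, then some dense linear subspace consists entirely of such vectors. -/
theorem result :
    ¬ (∀ (𝕂 : Type) [RCLike 𝕂] (X : Type) [NormedAddCommGroup X] [NormedSpace 𝕂 X]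
      [CompleteSpace X] (T : X →L[𝕂] X),
      Dense {x : X | ∀ U ∈ nhds x, ∃ ε : ℝ, 0 < ε ∧ ∀ N₀ : ℕ, ∃ N : ℕ, N₀ < N ∧
          ε * (N : ℝ) ≤ (({n : ℕ | 1 ≤ n ∧ n ≤ N ∧ (⇑T)^[n] x ∈ U}.ncard : ℕ) : ℝ)} →
      ∃ M : Submodule 𝕂 X, Dense (M : Set X) ∧
        ∀ x ∈ M, ∀ U ∈ nhds x, ∃ ε : ℝ, 0 < ε ∧ ∀ N₀ : ℕ, ∃ N : ℕ, N₀ < N ∧
          ε * (N : ℝ) ≤ (({n : ℕ | 1 ≤ n ∧ n ≤ N ∧ (⇑T)^[n] x ∈ U}.ncard : ℕ) : ℝ)) := by
  intro h
  obtain ⟨M, hM, hU⟩ := h ℝ Pool.Agent.MP_eb85b6_an.X Pool.Agent.MP_eb85b6_an.op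
    Pool.Agent.MP_eb85b6_an.dense_UF
  obtain ⟨x, hx, hbad⟩ := Pool.Agent.MP_eb85b6_an.exists_bad M hM
  exact hbad (hU x hx)

end Pool.Agent.S06568
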