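import Pool.Statements.S07254
import Pool.Agent.MP_1204ca_co.Count

set_option autoImplicit false
open N36dd7d27
open Filter Asymptotics SimpleGraph
open Pool Pool.MP_1204ca_co

namespace Pool.Agent.S07254

/-- The negation of the preceding statement: As n→∞ over ℕ, the max edge count of simple graphs on Fin n containing no (non-induced) copy of C3 or C4, as a real, is asymptotically equivalent to ((n:ℝ)/2)^(3/2:ℝ). -/
theorem result :
    ¬ ((fun n : ℕ ↦ (cycleExtremalNumber {3, 4} n : ℝ)) ~[atTop] fun n : ℕ ↦ ((n : ℝ) / 2) ^ (3 / 2 : ℝ)) := by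
  intro h
  have hlow : ∀ j : ℕ, 14250 * (5 ^ j) ^ 3 ≤ cycleExtremalNumber {3, 4} (1175 * (5 ^ j) ^ 2) := by
    intro j
    obtain ⟨G, h3, h4, hE⟩ := Pool.Agent.MP_1204ca_co.exists_graph j
    classical
    unfold cycleExtremalNumber
    refine hE.trans (le_trans (le_of_eq ?_) (Finset.le_sup
      (f := fun G : SimpleGraph (Fin (1175 * (5 ^ j) ^ 2)) => G.edgeFinset.card) (b := G) ?_))
    · rw [SimpleGraph.edgeFinset_card, Nat.card_eq_fintype_card]
    · refine Finset.mem_filter.2 ⟨Finset.mem_univ _, ?_⟩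
      rintro k (rfl | rfl)
      · exact h3
      · exact h4
  have hev := h.isLittleO.bound (show (0 : ℝ) < 1 / 2000 by norm_num)
  obtain ⟨N, hN⟩ := eventually_atTop.1 hev
  have hNle : N ≤ 1175 * (5 ^ N) ^ 2 := by
    have h1 : N < 5 ^ N := Nat.lt_pow_self (by norm_num)
    nlinarith
  have h1 := hN _ hNle
  have h2 : (14250 : ℝ) * ((5 : ℝ) ^ N) ^ 3
      ≤ (cycleExtremalNumber {3, 4} (1175 * (5 ^ N) ^ 2) : ℝ) := by
    exact_mod_cast hlow N
  have hv : (0 : ℝ) < (5 : ℝ) ^ N := by positivity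
  have hn : ((1175 * (5 ^ N) ^ 2 : ℕ) : ℝ) = 1175 * ((5 : ℝ) ^ N) ^ 2 := by push_cast; ring
  simp only [Pi.sub_apply, Real.norm_eq_abs] at h1
  rw [hn] at h1
  generalize (5 : ℝ) ^ N = v at h1 h2 hv
  have hx : (0 : ℝ) ≤ 1175 * v ^ 2 / 2 := by positivity
  have hg0 : (0 : ℝ) ≤ (1175 * v ^ 2 / 2) ^ (3 / 2 : ℝ) := Real.rpow_nonneg hx _
  have hsq : ((1175 * v ^ 2 / 2) ^ (3 / 2 : ℝ)) ^ 2 = (1175 * v ^ 2 / 2) ^ 3 := by
    rw [← Real.rpow_natCast, ← Real.rpow_mul hx, ← Real.rpow_natCast]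
    norm_num
  have hg : (1175 * v ^ 2 / 2) ^ (3 / 2 : ℝ) ≤ 14241 * v ^ 3 := by
    refine le_of_sq_le_sq ?_ (by positivity)
    rw [hsq]
    have h6 : 0 < v ^ 6 := by positivity
    nlinarith
  rw [abs_of_nonneg hg0] at h1
  have h3 := (abs_le.1 h1).2
  have h4 : 0 < v ^ 3 := by positivity
  linarith

end Pool.Agent.S07254
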