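import Pool.Statements.S07405
import Pool.Agent.MP_199c9e_co.Main

set_option autoImplicit false
universe u
open Pool Pool.MP_199c9e_co

namespace Pool.Agent.S07405

/-- For every infinite field F and finite simple graph G, some symmetric matrix over F whose off-diagonal nonzeros are exactly the edges of G has rank at most (number of vertices) minus (minimum degree). -/
theorem result :
    ∀ (F : Type u) [Field F] [Infinite F] (V : Type) [Fintype V] [DecidableEq V]
      (G : SimpleGraph V) [DecidableRel G.Adj],
      ∃ A : Matrix V V F, A.IsSymm ∧
        (∀ i j : V, i ≠ j → (A i j ≠ 0 ↔ G.Adj i j)) ∧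
        A.rank + G.minDegree ≤ Fintype.card V := by
  intro F _ _ V _ _ G _
  exact Pool.Agent.MP_199c9e_co.delta_bound F V G

end Pool.Agent.S07405
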