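import Pool.Statements.S07614

set_option autoImplicit false
open Pool Pool.MP_2117ab_co

namespace Pool.Agent.S07614

/-- The colour of each pair of vertices of the complete graph on six vertices. -/
def col : Fin 6 → Fin 6 → Fin 3 :=
  ![![0, 0, 2, 1, 0, 0],
    ![0, 0, 1, 2, 1, 1],
    ![2, 1, 0, 0, 0, 2],
    ![1, 2, 0, 0, 2, 1],
    ![0, 1, 0, 2, 0, 2],
    ![0, 1, 2, 1, 2, 0]]

/-- The three spanning trees. -/
def tr (i : Fin 3) : SimpleGraph (Fin 6) where
  Adj u v := u ≠ v ∧ col u v = i
  symm := ⟨by revert i; decide⟩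
  loopless := ⟨fun v h => h.1 rfl⟩

instance (i : Fin 3) : DecidableRel (tr i).Adj := fun u v =>
  inferInstanceAs (Decidable (u ≠ v ∧ col u v = i))

lemma tr_isTree (i : Fin 3) : (tr i).IsTree := by
  rw [SimpleGraph.isTree_iff_connected_and_card]
  refine ⟨?_, ?_⟩
  · revert i; decide +kernel
  · rw [Nat.card_eq_fintype_card, Nat.card_eq_fintype_card]
    revert i; decide +kernel

lemma peak {x y z : ℝ} (h : |x - z| < |x - y| + |y - z|) :
    (x < y ∧ z < y) ∨ (y < x ∧ y < z) := by
  rcases abs_cases (x - z) with h1 | h1 <;> rcases abs_cases (x - y) with h2 | h2 <;>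
    rcases abs_cases (y - z) with h3 | h3 <;>
    first
    | (left; constructor <;> linarith)
    | (right; constructor <;> linarith)

/-- An alternating path x0 x1 x2 x3 x4 on the line: the two end edges are together at most as
long as the two crossing distances. -/
lemma four_point {x0 x1 x2 x3 x4 : ℝ}
    (h1 : |x0 - x2| < |x0 - x1| + |x1 - x2|) (h2 : |x1 - x3| < |x1 - x2| + |x2 - x3|)
    (h3 : |x2 - x4| < |x2 - x3| + |x3 - x4|) :
    |x0 - x1| + |x3 - x4| ≤ |x1 - x4| + |x0 - x3| := by
  have a1 := le_abs_self (x1 - x4)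
  have a2 := neg_abs_le (x1 - x4)
  have a3 := le_abs_self (x0 - x3)
  have a4 := neg_abs_le (x0 - x3)
  rcases peak h1 with ⟨b1, b2⟩ | ⟨b1, b2⟩ <;> rcases peak h2 with ⟨c1, c2⟩ | ⟨c1, c2⟩ <;>
    rcases peak h3 with ⟨d1, d2⟩ | ⟨d1, d2⟩
  all_goals first
    | (exfalso; linarith)
    | (rw [abs_of_neg (a := x0 - x1) (by linarith), abs_of_pos (a := x3 - x4) (by linarith)]
       linarith)
    | (rw [abs_of_pos (a := x0 - x1) (by linarith), abs_of_neg (a := x3 - x4) (by linarith)]
       linarith)

/-- The negation of the preceding statement: For d ≥ 3, if a finite graph is the edge-disjoint union of d spanning trees, there is a placement in R^d where each edge of tree i has coordinate i as its unique largest coordinate difference (ℓ^∞ colour i). -/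
theorem result :
    ¬ (∀ (d : ℕ), 3 ≤ d →
    ∀ (V : Type) [Fintype V] (G : SimpleGraph V) (T : Fin d → SimpleGraph V),
      (∀ i, (T i).IsTree) →
      (∀ i j, i ≠ j → Disjoint (T i) (T j)) →
      G = ⨆ i, T i →
      ∃ p : V → Fin d → ℝ, ∀ i : Fin d, ∀ u v : V, G.Adj u v →
        ((T i).Adj u v ↔ ∀ j : Fin d, j ≠ i → |p u j - p v j| < |p u i - p v i|)) := by
  intro H
  obtain ⟨p, hp⟩ := H 3 le_rfl (Fin 6) (⨆ i, tr i) tr tr_isTree
    (by
      intro i j hij
      rw [SimpleGraph.disjoint_left]
      intro u v h1 h2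
      exact hij (h1.2.symm.trans h2.2)) rfl
  have key : ∀ (i : Fin 3) (u v : Fin 6), (tr i).Adj u v → ∀ j, j ≠ i →
      |p u j - p v j| < |p u i - p v i| := by
    intro i u v h
    exact (hp i u v (SimpleGraph.iSup_adj.2 ⟨i, h⟩)).1 h
  -- if uv and vw have colour i and uw has another colour k, the triangle is strict in coordinate i
  have tri : ∀ (i k : Fin 3) (u v w : Fin 6), i ≠ k → (tr i).Adj u v → (tr i).Adj v w →
      (tr k).Adj u w → |p u i - p w i| < |p u i - p v i| + |p v i - p w i| := by
    intro i k u v w hik h1 h2 h3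
    have e1 := key i u v h1 k hik.symm
    have e2 := key i v w h2 k hik.symm
    have e3 := key k u w h3 i hik
    have e4 := abs_sub_le (p u k) (p v k) (p w k)
    linarith
  -- colour 0 path 1 0 4 2 3
  have A := four_point (tri 0 1 1 0 4 (by decide) (by decide) (by decide) (by decide))
    (tri 0 2 0 4 2 (by decide) (by decide) (by decide) (by decide))
    (tri 0 2 4 2 3 (by decide) (by decide) (by decide) (by decide))
  -- colour 1 path 2 1 5 3 0
  have B := four_point (tri 1 2 2 1 5 (by decide) (by decide) (by decide) (by decide))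
    (tri 1 2 1 5 3 (by decide) (by decide) (by decide) (by decide))
    (tri 1 0 5 3 0 (by decide) (by decide) (by decide) (by decide))
  have c1 := key 1 0 3 (by decide) 0 (by decide)
  have c2 := key 1 1 2 (by decide) 0 (by decide)
  have c3 := key 0 1 0 (by decide) 1 (by decide)
  have c4 := key 0 2 3 (by decide) 1 (by decide)
  have s1 := abs_sub_comm (p 2 1) (p 1 1)
  have s2 := abs_sub_comm (p 3 1) (p 0 1)
  linarith

end Pool.Agent.S07614
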