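import Pool.Statements.S08077
import Pool.Agent.MP_35cb46_co.fl.All

set_option autoImplicit false
open Pool Pool.MP_35cb46_co

namespace Pool.Agent.S08077

/-- There are C and k such that for all p,q ≥ 1, every finite graph of treewidth at least C·pq·(log(pq)+1)^k has disjoint connected vertex sets, each inducing treewidth ≥ p, whose contraction (branch sets as vertices) has treewidth ≥ q. -/
theorem result : ∃ C : ℝ, ∃ k : ℕ, ∀ p q : ℕ, 1 ≤ p → 1 ≤ q →
    ∀ (V : Type) [Fintype V] (G : SimpleGraph V),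
      (∀ (m : ℕ) (T : SimpleGraph (Fin m)) (B : Fin m → Finset V), T.IsTree →
          (∀ v, ∃ i, v ∈ B i) → (∀ u v, G.Adj u v → ∃ i, u ∈ B i ∧ v ∈ B i) →
          (∀ v, (T.induce {i : Fin m | v ∈ B i}).Connected) →
          ∃ i, ⌈C * (p : ℝ) * (q : ℝ) * (Real.log ((p : ℝ) * (q : ℝ)) + 1) ^ k⌉₊ + 1 ≤ (B i).card) →
      ∃ n : ℕ, ∃ S : Fin n → Set V,
        (∀ i j, i ≠ j → Disjoint (S i) (S j)) ∧
        (∀ i, (G.induce (S i)).Connected) ∧
        (∀ i, ∀ (m : ℕ) (T : SimpleGraph (Fin m)) (B : Fin m → Finset (S i)), T.IsTree →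
          (∀ v, ∃ j, v ∈ B j) → (∀ u v, (G.induce (S i)).Adj u v → ∃ j, u ∈ B j ∧ v ∈ B j) →
          (∀ v, (T.induce {j : Fin m | v ∈ B j}).Connected) →
          ∃ j, p + 1 ≤ (B j).card) ∧
        (∀ (m : ℕ) (T : SimpleGraph (Fin m)) (B : Fin m → Finset (Fin n)), T.IsTree →
          (∀ v, ∃ j, v ∈ B j) →
          (∀ u v, (SimpleGraph.fromRel (fun a b : Fin n => ∃ x ∈ S a, ∃ y ∈ S b, G.Adj x y)).Adj u v →
            ∃ j, u ∈ B j ∧ v ∈ B j) →
          (∀ v, (T.induce {j : Fin m | v ∈ B j}).Connected) →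
          ∃ j, q + 1 ≤ (B j).card) :=
  Pool.Agent.MP_35cb46_co.Fl.main.bags

end Pool.Agent.S08077
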