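import Pool.Statements.S08603
import Pool.Agent.MP_4aec3d_co.Link

set_option autoImplicit false
open Pool Pool.MP_4aec3d_co

namespace Pool.Agent.S08603

/-- For n > 4, in Dresher's guessing game every optimal mixed strategy of the hider (maximizing the guaranteed expected number of guesses over interval-guessing strategies) gives 1 the same probability as the set {2,3}. -/
theorem result :
  ∀ n : ℕ, 4 < n →
  ∀ E : (ℕ → ℝ) → (ℕ → ℕ → ℕ) → ℝ,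
    (∀ (r : ℕ → ℝ) (u : ℕ → ℕ → ℕ), E r u = ∑ h ∈ Finset.Icc 1 n, r h *
      ((sInf {i : ℕ | Function.uncurry u
        ((fun x : ℕ × ℕ => if u x.1 x.2 < h then (u x.1 x.2 + 1, x.2)
            else if h < u x.1 x.2 then (x.1, u x.1 x.2 - 1) else x)^[i] (1, n)) = h} + 1 : ℕ) : ℝ)) →
  ∀ p : ℕ → ℝ, (∀ h, 0 ≤ p h) → ∑ h ∈ Finset.Icc 1 n, p h = 1 →
    (∀ q : ℕ → ℝ, (∀ h, 0 ≤ q h) → ∑ h ∈ Finset.Icc 1 n, q h = 1 →
      ∀ s : ℕ → ℕ → ℕ, (∀ a b, a ≤ b → a ≤ s a b ∧ s a b ≤ b) →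
        ∃ t : ℕ → ℕ → ℕ, (∀ a b, a ≤ b → a ≤ t a b ∧ t a b ≤ b) ∧ E q t ≤ E p s) →
    p 1 = p 2 + p 3 := by
  intro n hn E hE p hp hp1 hopt
  have hE' : ∀ (r : ℕ → ℝ) (u : ℕ → ℕ → ℕ),
      E r u = Pool.Agent.MP_4aec3d_co.cost n r (Pool.Agent.MP_4aec3d_co.vec n u) := by
    intro r u
    rw [hE]
    refine Finset.sum_congr rfl fun h hh => ?_
    have hh' := Finset.mem_Icc.1 hh
    simp only [Pool.Agent.MP_4aec3d_co.vec, if_pos hh']
    rw [Int.cast_natCast]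
    rfl
  refine Pool.Agent.MP_4aec3d_co.johnson n hn p hp hp1 fun q hq hq1 s hs => ?_
  obtain ⟨t, ht, hle⟩ := hopt q hq hq1 s hs
  exact ⟨t, ht, by rw [← hE', ← hE']; exact hle⟩

end Pool.Agent.S08603
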