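import Pool.Statements.S08667
import Pool.Agent.MP_4dad27_co.Main

set_option autoImplicit false
open Pool Pool.MP_4dad27_co

namespace Pool.Agent.S08667

/-- For every subset M of Z^2 and positive n1, n2: if the number of distinct n1-by-n2 blocks of M (translated to a common origin) is at most n1*n2, then M is invariant under translation by some nonzero integer vector. -/
theorem result :
    ∀ M : Set (ℤ × ℤ), ∀ n₁ n₂ : ℕ, 0 < n₁ → 0 < n₂ →
      (Set.range (fun q : ℤ × ℤ =>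
          {p : Fin n₁ × Fin n₂ | (q.1 + ((p.1 : ℕ) : ℤ), q.2 + ((p.2 : ℕ) : ℤ)) ∈ M})).ncard
        ≤ n₁ * n₂ →
      ∃ v : ℤ × ℤ, v ≠ 0 ∧ ∀ x : ℤ × ℤ, x + v ∈ M ↔ x ∈ M := by
  intro M n₁ n₂ _ _ h
  have hS : Nivat28.LC (Finset.Ico (0 : ℤ) n₁ ×ˢ Finset.Ico (0 : ℤ) n₂) := by
    refine ⟨Set.Ico (0 : ℝ) n₁ ×ˢ Set.Ico (0 : ℝ) n₂, (convex_Ico _ _).prod (convex_Ico _ _), ?_⟩
    intro x
    simp only [Finset.mem_product, Finset.mem_Ico, Set.mem_prod, Set.mem_Ico]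
    norm_cast
  obtain ⟨w, hw, hper⟩ := Nivat28.nivat (fun x => x ∈ M) _ hS
    (fun q : ℤ × ℤ =>
      {p : Fin n₁ × Fin n₂ | (q.1 + ((p.1 : ℕ) : ℤ), q.2 + ((p.2 : ℕ) : ℤ)) ∈ M})
    (Set.toFinite _) (by
    intro q q' hq s hs
    simp only [Finset.mem_product, Finset.mem_Ico] at hs
    have h1 := Set.ext_iff.mp hq (⟨s.1.toNat, by omega⟩, ⟨s.2.toNat, by omega⟩)
    simp only [Set.mem_ofPred_eq, Int.toNat_of_nonneg hs.1.1, Int.toNat_of_nonneg hs.2.1] at h1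
    have e : ∀ r : ℤ × ℤ, s + r = (r.1 + s.1, r.2 + s.2) := by
      intro r; rw [add_comm]; rfl
    rw [e, e]
    exact propext h1) (by simpa using h)
  exact ⟨w, hw, fun x => iff_of_eq (hper x)⟩

end Pool.Agent.S08667
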