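import Pool.Statements.S09164
import Pool.Agent.MP_62567c_co.Main

set_option autoImplicit false
open SimpleGraph
open Pool Pool.MP_62567c_co

namespace Pool.Agent.S09164

/-- The negation of the preceding statement: For every finite graph F with no isolated vertices: some 2-colouring of the edges of K_r, with r the Ramsey number of F, has exactly one monochromatic copy of F iff F is K_2 or a star K_{1,n} with n even. -/
theorem result :
    ¬ (∀ (V : Type) [Fintype V] (F : SimpleGraph V), Nonempty V → (∀ v : V, ∃ w : V, F.Adj v w) →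
      ((∃ G : SimpleGraph (Fin (sInf {p : ℕ | ∀ G : SimpleGraph (Fin p),
            (∃ H : G.Subgraph, Nonempty (H.coe ≃g F)) ∨
            (∃ H : Gᶜ.Subgraph, Nonempty (H.coe ≃g F))})),
          {H : G.Subgraph | Nonempty (H.coe ≃g F)}.ncard +
            {H : Gᶜ.Subgraph | Nonempty (H.coe ≃g F)}.ncard = 1) ↔
        (Nonempty (F ≃g (⊤ : SimpleGraph (Fin 2))) ∨
          ∃ n : ℕ, 0 < n ∧ Even n ∧
            Nonempty (F ≃g completeBipartiteGraph (Fin 1) (Fin n))))) := by
  intro h
  have h1 := (h (Fin 7) MP_62567c_co.F ⟨0⟩ (by decide)).1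
    (MP_62567c_co.one_copy MP_62567c_co.ramsey)
  rcases h1 with h1 | ⟨n, -, -, h1⟩
  · exact MP_62567c_co.not_K2 h1
  · exact MP_62567c_co.not_star n h1

end Pool.Agent.S09164
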