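import Pool.Statements.S09302
import Pool.Agent.MP_6a070e_co.Main

set_option autoImplicit false
open Pool Pool.MP_6a070e_co

namespace Pool.Agent.S09302

/-- The negation of the preceding statement: Every nonempty finite connected binary matroid (circuits meet cocircuits evenly) whose cocircuits all have at least 5 elements has a circuit D whose deletion leaves a matroid where any two distinct elements share a circuit. -/
theorem result :
    ¬ (∀ (α : Type) [Fintype α] (M : Matroid α),
      M.E.Nonempty →
      (∀ C K : Set α, M.IsCircuit C → M.IsCocircuit K → Even (C ∩ K).ncard) →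
      (∀ e ∈ M.E, ∀ f ∈ M.E, e ≠ f → ∃ C : Set α, M.IsCircuit C ∧ e ∈ C ∧ f ∈ C) →
      (∀ K : Set α, M.IsCocircuit K → 5 ≤ K.ncard) →
      ∃ D : Set α, M.IsCircuit D ∧
        ∀ e ∈ (M.delete D).E, ∀ f ∈ (M.delete D).E, e ≠ f →
          ∃ C : Set α, (M.delete D).IsCircuit C ∧ e ∈ C ∧ f ∈ C) := by
  intro h
  obtain ⟨M, h1, h2, h3, h4, h5⟩ := Pool.Agent.MP_6a070e_co.bch_counterexample
  exact h5 (h (Fin 31) M h1 h2 h3 h4)

end Pool.Agent.S09302
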