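import Pool.Statements.S09407
import Pool.Agent.MP_6f6f6b_co.Main

set_option autoImplicit false
open Pool Pool.MP_6f6f6b_co

namespace Pool.Agent.S09407

/-- For all large n, every n-vertex digraph with all in- and out-degrees above 2n/3 and a vertex joined both ways to all others contains every n-vertex oriented tree as a subdigraph. -/
theorem result :
    ∃ N : ℕ, ∀ n : ℕ, N ≤ n → ∀ D : Digraph (Fin n),
      (∀ v : Fin n,
        3 * {w : Fin n | w ≠ v ∧ D.Adj v w}.ncard > 2 * n ∧
        3 * {w : Fin n | w ≠ v ∧ D.Adj w v}.ncard > 2 * n) →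
      (∃ u : Fin n, ∀ w : Fin n, w ≠ u → D.Adj u w ∧ D.Adj w u) →
      ∀ T : Digraph (Fin n),
        (∀ a : Fin n, ¬ T.Adj a a) →
        (∀ a b : Fin n, T.Adj a b → ¬ T.Adj b a) →
        (SimpleGraph.fromRel T.Adj).IsTree →
        ∃ f : Fin n → Fin n, Function.Injective f ∧
          ∀ a b : Fin n, T.Adj a b → D.Adj (f a) (f b) := by
  exact Pool.Agent.MP_6f6f6b_co.main

end Pool.Agent.S09407
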