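import Pool.Statements.S10618
import Pool.Agent.MP_a6f858_co.Minors

set_option autoImplicit false
open Pool Pool.MP_a6f858_co

namespace Pool.Agent.S10618

/-- The negation of the preceding statement: For every finite matroid M and every r ≤ n there is a bound B such that every finite matroid having minors isomorphic to M and to U_{r,n}, with no proper minor having both, has at most B elements. -/
theorem result :
    ¬ (∀ (M : Matroid ℕ), M.Finite → ∀ r n : ℕ, r ≤ n →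
      ∃ B : ℕ, ∀ N : Matroid ℕ, N.Finite →
        ((∃ N₁ : Matroid ℕ, Matroid.IsMinor N₁ N ∧
            ∃ f : ℕ → ℕ, Set.BijOn f N₁.E M.E ∧
              ∀ I ⊆ N₁.E, (N₁.Indep I ↔ M.Indep (f '' I))) ∧
         (∃ N₂ : Matroid ℕ, Matroid.IsMinor N₂ N ∧ N₂.E.Finite ∧ N₂.E.ncard = n ∧
              ∀ I ⊆ N₂.E, (N₂.Indep I ↔ I.ncard ≤ r)) ∧
         (∀ N' : Matroid ℕ, Matroid.IsMinor N' N → N' ≠ N →
            ¬ ((∃ N₁ : Matroid ℕ, Matroid.IsMinor N₁ N' ∧
                  ∃ f : ℕ → ℕ, Set.BijOn f N₁.E M.E ∧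
                    ∀ I ⊆ N₁.E, (N₁.Indep I ↔ M.Indep (f '' I))) ∧
               (∃ N₂ : Matroid ℕ, Matroid.IsMinor N₂ N' ∧ N₂.E.Finite ∧ N₂.E.ncard = n ∧
                  ∀ I ⊆ N₂.E, (N₂.Indep I ↔ I.ncard ≤ r))))) →
        N.E.ncard ≤ B) := by
  intro H
  obtain ⟨B, hB⟩ := H Pool.Agent.MP_a6f858_co.R10
    (Pool.Agent.MP_a6f858_co.linM_finite _ _ _) 2 4 (by norm_num)
  have hk : 0 < 4 * B + 7 := by omega
  have h := hB (Pool.Agent.MP_a6f858_co.NN (4 * B + 7) hk) ⟨Set.finite_Iio _⟩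
    ⟨Pool.Agent.MP_a6f858_co.has_R10 B hk, Pool.Agent.MP_a6f858_co.has_U24 hk (by omega), ?_⟩
  · rw [Pool.Agent.MP_a6f858_co.NN_E] at h
    simp at h
    omega
  · rintro N' hN' hne ⟨⟨N₁, hN₁, f, hf, hi⟩, ⟨N₂, hN₂, -, h4, hU⟩⟩
    have hw : Pool.Agent.MP_a6f858_co.Wide N₁ :=
      Pool.Agent.MP_a6f858_co.wide_of_iso Pool.Agent.MP_a6f858_co.R10_wide f hf hi
    obtain ⟨e, he, h | h⟩ := Pool.Agent.MP_a6f858_co.proper_minor hN' hne
    · rcases Nat.mod_two_eq_zero_or_one e with h2 | h2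
      · exact Pool.Agent.MP_a6f858_co.no_wide_contract he h2 (hN₁.trans h) hw
      · exact Pool.Agent.MP_a6f858_co.no_U24_contract he h2 (hN₂.trans h) h4 hU
    · rcases Nat.mod_two_eq_zero_or_one e with h2 | h2
      · exact Pool.Agent.MP_a6f858_co.no_U24_delete he h2 (hN₂.trans h) h4 hU
      · exact Pool.Agent.MP_a6f858_co.no_wide_delete he h2 (hN₁.trans h) hw

end Pool.Agent.S10618
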