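-- Counterexample to the spectral form of the Caccetta-Haggkvist conjecture (Charbit).
-- Blow up the directed 6-cycle, replacing each vertex by a pair joined by one arc:
-- n = 12 vertices, every directed cycle has length at least 6, and 1 + sqrt 2 >= 12/5 is an eigenvalue.
import Pool.Statements.S10770

set_option autoImplicit false
open Pool Pool.MP_ad5ca6_co

namespace Pool.Agent.S10770

/-- Arcs: from part `i / 2` to the next part (mod 6), and from `2t` to `2t+1` inside a part. -/
def adj (i j : Fin 12) : Bool :=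
  (j.val / 2 == (i.val / 2 + 1) % 6) || (i.val % 2 == 0 && j.val == i.val + 1)

/-- The adjacency matrix. -/
def M : Matrix (Fin 12) (Fin 12) ℂ := fun i j => if adj i j then 1 else 0

lemma adj_of_M {i j : Fin 12} (h : M i j = 1) : adj i j = true := by
  unfold M at h
  by_contra hne
  simp [hne] at h

lemma no2 : ∀ a b : Fin 12, adj a b = true → adj b a = true → False := by decide

lemma no3 : ∀ a b : Fin 12, adj a b = true → ∀ c : Fin 12, adj b c = true →
    adj c a = true → False := by decide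

lemma no4 : ∀ a b : Fin 12, adj a b = true → ∀ c : Fin 12, adj b c = true →
    ∀ d : Fin 12, adj c d = true → adj d a = true → False := by decide +kernel

lemma no5 : ∀ a b : Fin 12, adj a b = true → ∀ c : Fin 12, adj b c = true →
    ∀ d : Fin 12, adj c d = true → ∀ e : Fin 12, adj d e = true → adj e a = true → False := by
  decide +kernel

/-- The Perron vector. -/
noncomputable def x : Fin 12 → ℂ := fun i => if i.val % 2 = 0 then ((Real.sqrt 2 : ℝ) : ℂ) else 1

lemma sq2 : ((Real.sqrt 2 : ℝ) : ℂ) * ((Real.sqrt 2 : ℝ) : ℂ) = 2 := by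
  rw [← Complex.ofReal_mul, Real.mul_self_sqrt (by norm_num)]
  norm_num

lemma eig : M.mulVec x = (1 + ((Real.sqrt 2 : ℝ) : ℂ)) • x := by
  have h := sq2
  funext i
  fin_cases i <;>
    simp [Matrix.mulVec, dotProduct, Fin.sum_univ_succ, M, adj, x] <;>
    first
      | linear_combination (-1 : ℂ) * h
      | ring

lemma mem_spec : (1 + ((Real.sqrt 2 : ℝ) : ℂ)) ∈ spectrum ℂ M := by
  rw [spectrum.mem_iff, Matrix.isUnit_iff_isUnit_det, isUnit_iff_ne_zero, not_not,
    ← Matrix.exists_mulVec_eq_zero_iff]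
  refine ⟨x, ?_, ?_⟩
  · intro h
    have h1 := congrFun h 1
    simp [x] at h1
  · rw [Matrix.sub_mulVec, eig, Algebra.algebraMap_eq_smul_one, Matrix.smul_mulVec,
      Matrix.one_mulVec, sub_self]

lemma norm_ge : ((12 : ℕ) : ℝ) / ((5 : ℕ) : ℝ) ≤ ‖(1 + ((Real.sqrt 2 : ℝ) : ℂ))‖ := by
  have h1 : (1 + ((Real.sqrt 2 : ℝ) : ℂ)) = ((1 + Real.sqrt 2 : ℝ) : ℂ) := by push_cast; ring
  have h2 : (7 / 5 : ℝ) ≤ Real.sqrt 2 := Real.le_sqrt_of_sq_le (by norm_num)
  rw [h1, Complex.norm_real, Real.norm_eq_abs, abs_of_nonneg (by positivity)]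
  push_cast
  linarith

/-- The negation of the preceding statement: For every positive integer k and every n-vertex digraph with 0/1 adjacency matrix and zero diagonal, if some eigenvalue has modulus at least n/k, then the digraph has a directed cycle of length between 2 and k. -/
theorem result :
    ¬ (∀ (n k : ℕ), 0 < k →
      ∀ (A : Matrix (Fin n) (Fin n) ℂ),
        (∀ i j, A i j = 0 ∨ A i j = 1) →
        (∀ i, A i i = 0) →
        (∃ μ ∈ spectrum ℂ A, (n : ℝ) / (k : ℝ) ≤ ‖μ‖) →
        ∃ m : ℕ, 2 ≤ m ∧ m ≤ k ∧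
          ∃ v : Fin m → Fin n, Function.Injective v ∧
            ∀ i : Fin m, A (v i) (v (finRotate m i)) = 1) := by
  intro H
  have h01 : ∀ i j, M i j = 0 ∨ M i j = 1 := by
    intro i j
    unfold M
    split_ifs
    · exact Or.inr rfl
    · exact Or.inl rfl
  have hdiag : ∀ i, M i i = 0 := by
    intro i
    have : adj i i = false := by revert i; decide
    simp [M, this]
  obtain ⟨m, hm2, hm5, v, -, hv⟩ := H 12 5 (by norm_num) M h01 hdiag ⟨_, mem_spec, norm_ge⟩
  have hv' : ∀ i : Fin m, adj (v i) (v (finRotate m i)) = true := fun i => adj_of_M (hv i)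
  interval_cases m
  · exact no2 (v 0) (v 1) (hv' 0) (hv' 1)
  · exact no3 (v 0) (v 1) (hv' 0) (v 2) (hv' 1) (hv' 2)
  · exact no4 (v 0) (v 1) (hv' 0) (v 2) (hv' 1) (v 3) (hv' 2) (hv' 3)
  · exact no5 (v 0) (v 1) (hv' 0) (v 2) (hv' 1) (v 3) (hv' 2) (v 4) (hv' 3) (hv' 4)

end Pool.Agent.S10770
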