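import Pool.Statements.S11927
import Pool.Agent.MP_debc19_co.Main

set_option autoImplicit false
open Pool Pool.MP_debc19_co

namespace Pool.Agent.S11927

/-- For every graph class closed under induced subgraphs and isomorphism, if it has at most n! times c^n labeled graphs on n vertices for some c, then for some c it has at most c^n graphs on n vertices up to isomorphism. -/
theorem result :
    ∀ P : (n : ℕ) → SimpleGraph (Fin n) → Prop,
      (∀ (n m : ℕ) (f : Fin m ↪ Fin n) (G : SimpleGraph (Fin n)),
          P n G → P m (G.comap f)) →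
      (∃ c : ℕ, ∀ n : ℕ,
          {G : SimpleGraph (Fin n) | P n G}.ncard ≤ Nat.factorial n * c ^ n) →
      ∃ c : ℕ, ∀ n : ℕ, ∃ S : Finset (SimpleGraph (Fin n)),
          S.card ≤ c ^ n ∧
          ∀ G : SimpleGraph (Fin n), P n G → ∃ H ∈ S, Nonempty (G ≃g H) := by
  intro P hP hsmall
  obtain ⟨c, hc⟩ := hsmall
  exact Pool.Agent.MP_debc19_co.small_imp_tiny P hP c hc

end Pool.Agent.S11927
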