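-- Proof of frozen statement S11991 with C k = 8 k.
import Pool.Statements.S11991
import Pool.Agent.MP_e19463_co.Core

set_option autoImplicit false
open Pool Pool.MP_e19463_co

namespace Pool.Agent.S11991

open Module Submodule Pool.Agent.MP_e19463_co

lemma finrank_map_eq_of_ker_eq {F : Type*} [Field F] {U V W : Type*} [AddCommGroup U] [Module F U]
    [AddCommGroup V] [Module F V] [AddCommGroup W] [Module F W] [FiniteDimensional F U]
    (f : U →ₗ[F] V) (g : U →ₗ[F] W) (h : LinearMap.ker f = LinearMap.ker g) (N : Submodule F U) :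
    finrank F (N.map f) = finrank F (N.map g) := by
  have h1 := LinearMap.finrank_range_add_finrank_ker (f.domRestrict N)
  have h2 := LinearMap.finrank_range_add_finrank_ker (g.domRestrict N)
  rw [LinearMap.range_domRestrict, LinearMap.ker_domRestrict] at h1 h2
  rw [h] at h1
  omega

lemma span_cols_eq_map {F : Type*} [Field F] {m : Type*} {n : Type*} [Fintype n] [DecidableEq n]
    (A : Matrix m n F) (X : Set n) :
    span F ((fun j : n => fun i : m => A i j) '' X) =
      (span F ((fun j : n => (Pi.single j 1 : n → F)) '' X)).map A.mulVecLin := by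
  rw [Submodule.map_span, Set.image_image]
  congr 2
  funext j
  funext i
  simp

lemma ker_le_of_rows {F : Type*} [Field F] {m m' : Type*} {n : Type*} [Fintype n]
    (A : Matrix m n F) (B : Matrix m' n F)
    (h : span F (Set.range B) ≤ span F (Set.range A)) :
    LinearMap.ker A.mulVecLin ≤ LinearMap.ker B.mulVecLin := by
  intro x hx
  rw [LinearMap.mem_ker] at hx ⊢
  funext i
  have hi : B i ∈ span F (Set.range A) := h (Submodule.subset_span ⟨i, rfl⟩)
  have : ∀ y ∈ span F (Set.range A), y ⬝ᵥ x = 0 := by
    intro y hy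
    induction hy using Submodule.span_induction with
    | mem y hy =>
      obtain ⟨i, rfl⟩ := hy
      exact congrFun hx i
    | zero => simp
    | add a b _ _ ha hb => rw [add_dotProduct, ha, hb, add_zero]
    | smul a b _ hb => rw [smul_dotProduct, hb, smul_zero]
  exact this _ hi

lemma finrank_cols_eq {F : Type*} [Field F] {m m' : Type*} {n : Type*} [Fintype n] [DecidableEq n]
    (A : Matrix m n F) (B : Matrix m' n F)
    (h : span F (Set.range B) = span F (Set.range A)) (X : Set n) :
    finrank F (span F ((fun j : n => fun i : m => A i j) '' X)) =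
      finrank F (span F ((fun j : n => fun i : m' => B i j) '' X)) := by
  rw [span_cols_eq_map A X, span_cols_eq_map B X]
  exact finrank_map_eq_of_ker_eq _ _
    (le_antisymm (ker_le_of_rows A B h.le) (ker_le_of_rows B A h.ge)) _

/-- There is a function C such that for every loopless binary matroid M whose cocycle space has a basis of vectors of weight at most k, every complex root of the characteristic polynomial of M has modulus at most C(k). -/
theorem result :
  ∃ C : ℕ → ℝ, ∀ (m n : ℕ) (A : Matrix (Fin m) (Fin n) (ZMod 2)),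
    (∀ j : Fin n, ∃ i : Fin m, A i j ≠ 0) →
    ∀ k : ℕ,
    (∃ s : Finset (Fin n → ZMod 2),
        LinearIndependent (ZMod 2)
          (fun v : (s : Set (Fin n → ZMod 2)) => (v : Fin n → ZMod 2)) ∧
        Submodule.span (ZMod 2) (s : Set (Fin n → ZMod 2)) =
          Submodule.span (ZMod 2) (Set.range A) ∧
        ∀ v ∈ s, (Finset.univ.filter (fun j : Fin n => v j ≠ 0)).card ≤ k) →
    ∀ q : ℂ,
      (∑ X : Finset (Fin n), (-1 : ℂ) ^ X.card *
        q ^ (Module.finrank (ZMod 2)
                (Submodule.span (ZMod 2)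
                  (Set.range (fun j : Fin n => fun i : Fin m => A i j))) -
             Module.finrank (ZMod 2)
                (Submodule.span (ZMod 2)
                  ((fun j : Fin n => fun i : Fin m => A i j) '' (X : Set (Fin n)))))) = 0 →
      ‖q‖ ≤ C k := by
  refine ⟨fun k => 8 * k + 1, ?_⟩
  intro m n A hA k ⟨s, _, hspan, hk⟩ q hq
  by_contra hlt
  push Not at hlt
  have hk0 : (0 : ℝ) ≤ k := Nat.cast_nonneg k
  have hqpos : 0 < ‖q‖ := by linarith
  have hq0 : q ≠ 0 := norm_pos_iff.1 hqpos
  let B : Matrix s (Fin n) (ZMod 2) := fun v j => v.1 j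
  have hB : span (ZMod 2) (Set.range B) = span (ZMod 2) (Set.range A) := by
    rw [← hspan]
    congr 1
    ext x
    constructor
    · rintro ⟨v, rfl⟩
      exact v.2
    · intro hx
      exact ⟨⟨x, hx⟩, rfl⟩
  have hz : k * (2 * ‖q⁻¹‖) ≤ 1 / 4 := by
    rw [norm_inv, ← div_eq_mul_inv, ← mul_div_assoc, div_le_iff₀ hqpos]
    linarith
  have hmain := (main_bound (F := ZMod 2) q⁻¹ (fun j : Fin n => fun v : s => B v j) k hz
    Finset.univ ?_ ?_).1
  · apply hmain
    set r := Module.finrank (ZMod 2) (Submodule.span (ZMod 2)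
      (Set.range (fun j : Fin n => fun i : Fin m => A i j))) with hr
    have hqr : q ^ r ≠ 0 := pow_ne_zero _ hq0
    apply mul_left_cancel₀ hqr
    rw [mul_zero, ← hq]
    unfold Phi
    rw [Finset.powerset_univ, Finset.mul_sum]
    apply Finset.sum_congr rfl
    intro X _
    rw [bot_sup_eq, ← finrank_cols_eq A B hB]
    have hle : Module.finrank (ZMod 2) (Submodule.span (ZMod 2)
        ((fun j : Fin n => fun i : Fin m => A i j) '' (X : Set (Fin n)))) ≤ r :=
      Submodule.finrank_mono (Submodule.span_mono (Set.image_subset_range _ _))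
    rw [pow_sub₀ q hq0 hle, inv_pow]
    ring
  · intro j _ hj
    obtain ⟨i, hi⟩ := hA j
    apply hi
    have h1 : A i ∈ span (ZMod 2) (Set.range B) := by
      rw [hB]; exact Submodule.subset_span ⟨i, rfl⟩
    have h2 : span (ZMod 2) (Set.range B) ≤ hyp j := by
      rw [Submodule.span_le]
      rintro _ ⟨v, rfl⟩
      exact (mem_hyp j _).2 (congrFun hj v)
    exact (mem_hyp j _).1 (h2 h1)
  · intro v
    refine le_trans (le_of_eq ?_) (hk v.1 v.2)
    unfold MP_e19463_co.star
    congr 1
    ext j
    simp [B]

end Pool.Agent.S11991
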