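import Pool.Statements.S12455
import Pool.Agent.MP_f6f5a0_co.Numeric

set_option autoImplicit false
open Pool Pool.MP_f6f5a0_co

namespace Pool.Agent.S12455

/-- For every n>3 and j in {0,1,2}, the (3^n+j)-subsets of a (3^{n+1}+2)-set can be 3-coloured so each colour class is a 2-design: every pair lies in exactly C(3^{n+1},3^n+j−2)/3 blocks of each colour. -/
theorem result :
    ∀ n : ℕ, 3 < n → ∀ j : ℕ, j ≤ 2 →
      ∃ f : Finset (Fin (3 ^ (n + 1) + 2)) → Fin 3,
        ∀ c : Fin 3, ∀ T : Finset (Fin (3 ^ (n + 1) + 2)), T.card = 2 →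
          3 * (Finset.univ.filter
                (fun S : Finset (Fin (3 ^ (n + 1) + 2)) =>
                  S.card = 3 ^ n + j ∧ T ⊆ S ∧ f S = c)).card
            = Nat.choose (3 ^ (n + 1)) (3 ^ n + j - 2) := by
  intro n hn j hj
  have h1 : 3 ^ 4 ≤ 3 ^ n := Nat.pow_le_pow_right (by omega) hn
  obtain ⟨m, hm⟩ : ∃ m, 3 ^ n = m + 1 := ⟨3 ^ n - 1, by omega⟩
  have hv : 3 ^ (n + 1) + 2 = 3 * m + 5 := by rw [pow_succ]; omega
  obtain ⟨f, hf⟩ := Pool.Agent.MP_f6f5a0_co.concrete_main (m := m) (by omega) (3 ^ n + j)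
    (by omega) (fun i hi => hv ▸ Pool.Agent.MP_f6f5a0_co.div_ok n j hn hj i hi)
    (hm ▸ Pool.Agent.MP_f6f5a0_co.cap_ok m j (by omega) hj)
  let e : Fin (3 ^ (n + 1) + 2) ≃ Pool.Agent.MP_f6f5a0_co.Pt m :=
    Fintype.equivOfCardEq (by rw [Pool.Agent.MP_f6f5a0_co.card_pt, Fintype.card_fin, hv])
  refine ⟨fun S => f (S.map e.toEmbedding), fun c T hT => ?_⟩
  have h2 := hf c (T.map e.toEmbedding) (by rw [Finset.card_map, hT])
  have h3 : 3 * m + 5 - 2 = 3 ^ (n + 1) := by omega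
  rw [h3] at h2
  rw [← h2]
  congr 1
  refine Finset.card_bijective (fun S => S.map e.toEmbedding) e.finsetCongr.bijective ?_
  intro S
  simp only [Finset.mem_filter, Finset.mem_univ, true_and, Finset.card_map,
    Finset.map_subset_map]
  rfl

end Pool.Agent.S12455
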