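import Pool.Statements.S12793
import Pool.Agent.MP_14ad8d_gt.Group

set_option autoImplicit false
open Filter Topology
open Pool Pool.MP_14ad8d_gt

namespace Pool.Agent.S12793

/-- There is an abelian Hausdorff topological group in which any choice of points from a sequence of nonempty open sets can be made to have an accumulation point, yet for each free ultrafilter p some sequence of open sets admits no choice with a p-limit. -/
theorem result :
    ∃ (G : Type) (_ : CommGroup G) (_ : TopologicalSpace G),
      IsTopologicalGroup G ∧ T2Space G ∧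
      (∀ U : ℕ → Set G, (∀ n, IsOpen (U n) ∧ (U n).Nonempty) →
        ∃ x : ℕ → G, (∀ n, x n ∈ U n) ∧ ∃ y : G, MapClusterPt y atTop x) ∧
      (∀ p : Ultrafilter ℕ, (p : Filter ℕ) ≤ cofinite →
        ∃ U : ℕ → Set G, (∀ n, IsOpen (U n) ∧ (U n).Nonempty) ∧
          ∀ x : ℕ → G, (∀ n, x n ∈ U n) →
            ∀ y : G, ¬ Tendsto x (p : Filter ℕ) (𝓝 y)) := by
  refine ⟨Multiplicative Pool.Agent.MP_14ad8d_gt.G, inferInstance, inferInstance, inferInstance,
    inferInstanceAs (T2Space Pool.Agent.MP_14ad8d_gt.G), ?_, ?_⟩
  · exact Pool.Agent.MP_14ad8d_gt.selective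
  · exact Pool.Agent.MP_14ad8d_gt.not_strongly

end Pool.Agent.S12793
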