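import Pool.Statements.S12831
import Pool.Agent.MP_19b6be_gt.Santalo

set_option autoImplicit false
open MeasureTheory
open Pool Pool.MP_19b6be_gt

namespace Pool.Agent.S12831

/-- For every convex body K in R^n and r>0, the minimum over centers q of the integral over the Funk ball q+(1-e^-r)(K-q) of the volume of the polar of K about x is at most the same quantity for the Euclidean unit ball. -/
theorem result :
    ∀ (n : ℕ) (K : Set (EuclideanSpace ℝ (Fin n))),
      IsCompact K → Convex ℝ K → (interior K).Nonempty →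
      ∀ r : ℝ, 0 < r →
        (⨅ q ∈ interior K,
            ∫⁻ x in {y | ∃ z ∈ K, y = q + (1 - Real.exp (-r)) • (z - q)},
              volume {w : EuclideanSpace ℝ (Fin n) | ∀ z ∈ K, inner ℝ w (z - x) ≤ 1})
        ≤
        (⨅ q ∈ interior (Metric.closedBall (0 : EuclideanSpace ℝ (Fin n)) 1),
            ∫⁻ x in {y | ∃ z ∈ Metric.closedBall (0 : EuclideanSpace ℝ (Fin n)) 1,
                      y = q + (1 - Real.exp (-r)) • (z - q)},
              volume {w : EuclideanSpace ℝ (Fin n) |
                ∀ z ∈ Metric.closedBall (0 : EuclideanSpace ℝ (Fin n)) 1,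
                  inner ℝ w (z - x) ≤ 1}) := by
  intro n K hK hc hi r hr
  have h0 : 0 < 1 - Real.exp (-r) := sub_pos.2 (Real.exp_lt_one_iff.2 (neg_lt_zero.2 hr))
  have h1 : 1 - Real.exp (-r) < 1 := sub_lt_self _ (Real.exp_pos _)
  exact le_iInf₂ fun q hq => (iInf₂_le _ (Pool.Agent.MP_19b6be_gt.centroid_mem hK hc hi)).trans
    (Pool.Agent.MP_19b6be_gt.funk_all hK hc hi h0 h1 (interior_subset hq))

end Pool.Agent.S12831
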