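import Pool.Statements.S12870
import Pool.Agent.MP_1f2e48_gt.Cont

set_option autoImplicit false
open Pool Pool.MP_1f2e48_gt

namespace Pool.Agent.S12870

/-- The negation of the preceding statement: Every compact connected metric space that is hereditarily indecomposable, has ε-maps onto a simple triod for all ε, and whose proper nondegenerate subcontinua are all arc-like (hence pseudo-arcs) embeds topologically in the plane. -/
theorem result :
    ¬ (∀ (X : Type) [MetricSpace X] [CompactSpace X] [ConnectedSpace X],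
      (∀ A B : Set X, IsClosed A → IsConnected A → IsClosed B → IsConnected B →
          (A ∩ B).Nonempty → A ⊆ B ∨ B ⊆ A) →
      (∀ ε : ℝ, 0 < ε → ∃ f : X → ℝ × ℝ, Continuous f ∧
          Set.range f =
            {p : ℝ × ℝ | (p.2 = 0 ∧ 0 ≤ p.1 ∧ p.1 ≤ 1) ∨ (p.1 = 0 ∧ 0 ≤ p.2 ∧ p.2 ≤ 1) ∨
              (p.2 = 0 ∧ -1 ≤ p.1 ∧ p.1 ≤ 0)} ∧
          ∀ x y : X, f x = f y → dist x y < ε) →
      (∀ K : Set X, IsClosed K → IsConnected K → K ≠ Set.univ →
          K.Subsingleton ∨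
          ∀ ε : ℝ, 0 < ε → ∃ g : X → ℝ, ContinuousOn g K ∧ g '' K = Set.Icc 0 1 ∧
            ∀ x ∈ K, ∀ y ∈ K, g x = g y → dist x y < ε) →
      ∃ e : X → ℝ × ℝ, Topology.IsEmbedding e) := by
  intro h
  obtain ⟨e, he⟩ := h Pool.Agent.MP_1f2e48_gt.XX Pool.Agent.MP_1f2e48_gt.hered
    Pool.Agent.MP_1f2e48_gt.triod_like Pool.Agent.MP_1f2e48_gt.arc_like
  exact Pool.Agent.MP_1f2e48_gt.not_emb e he

end Pool.Agent.S12870
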