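import Pool.Statements.S13490
import Pool.Agent.MP_866953_gt.Main

set_option autoImplicit false
open Pool Pool.MP_866953_gt

namespace Pool.Agent.S13490

/-- The negation of the preceding statement: For Tychonoff spaces X and Y, suppose X has a countable k-network and C_p(X), C_p(Y) (pointwise topology, pointwise uniformity) are uniformly homeomorphic. Then Y also has a countable k-network, i.e. being an ℵ0-space is u-invariant. -/
theorem result :
    ¬ (∀ (X Y : Type) [TopologicalSpace X] [TopologicalSpace Y] [T35Space X] [T35Space Y],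
      (∃ N : Set (Set X), N.Countable ∧
        ∀ K U : Set X, IsCompact K → IsOpen U → K ⊆ U →
          ∃ F : Finset (Set X), (↑F : Set (Set X)) ⊆ N ∧
            K ⊆ ⋃₀ (↑F : Set (Set X)) ∧ ⋃₀ (↑F : Set (Set X)) ⊆ U) →
      Nonempty (UniformEquiv {f : X → ℝ // Continuous f} {g : Y → ℝ // Continuous g}) →
      (∃ N : Set (Set Y), N.Countable ∧
        ∀ K U : Set Y, IsCompact K → IsOpen U → K ⊆ U →
          ∃ F : Finset (Set Y), (↑F : Set (Set Y)) ⊆ N ∧
            K ⊆ ⋃₀ (↑F : Set (Set Y)) ∧ ⋃₀ (↑F : Set (Set Y)) ⊆ U)) := by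
  intro h
  have hX : T35Space (MP_866953_gt.OP MP_866953_gt.FJ) :=
    MP_866953_gt.OP.t35 MP_866953_gt.FJ_compl_singleton
  have hY : T35Space (MP_866953_gt.OP MP_866953_gt.FY) :=
    MP_866953_gt.OP.t35 MP_866953_gt.FY_compl_singleton
  exact MP_866953_gt.no_knetwork_Y
    (h (MP_866953_gt.OP MP_866953_gt.FJ) (MP_866953_gt.OP MP_866953_gt.FY)
      MP_866953_gt.knetwork_X ⟨MP_866953_gt.uequiv⟩)

end Pool.Agent.S13490
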