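import Pool.Statements.S14344
import Pool.Agent.MP_082264_lc.Reduction

set_option autoImplicit false
open Pool Pool.MP_082264_lc

namespace Pool.Agent.S14344

/-- The negation of the preceding statement: Some algorithm decides, for a code given as n and a list of codewords over {0..n-1}, whether there are convex sets X_0..X_{n-1} in R^3 whose code {i : x in X_i}, taken over all points x of R^3, equals exactly the given set of codewords. -/
theorem result :
    ¬ (ComputablePred (fun p : ℕ × List (List ℕ) =>
      (∀ l ∈ p.2, ∀ i ∈ l, i < p.1) ∧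
      ∃ X : ℕ → Set (EuclideanSpace ℝ (Fin 3)),
        (∀ i, Convex ℝ (X i)) ∧
        (∀ i, p.1 ≤ i → X i = ∅) ∧
        {S : Set ℕ | ∃ x : EuclideanSpace ℝ (Fin 3), S = {i | x ∈ X i}} =
          {S : Set ℕ | ∃ l ∈ p.2, S = {i | i ∈ l}})) := by
  exact Pool.Agent.MP_082264_lc.not_computable_codeReal

end Pool.Agent.S14344
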