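import Pool.Statements.S14377
import Pool.Agent.MP_0ee11a_lc.Main

set_option autoImplicit false
open Pool Pool.MP_0ee11a_lc

namespace Pool.Agent.S14377

/-- There is a computable coloring of the positive integers with finitely many colors such that no infinite Delta^0_4 set of positive integers has all sums of its nonempty finite subsets the same color. -/
theorem result :
    ∃ k : ℕ, ∃ col : ℕ → ℕ, Computable col ∧ (∀ n, col n < k) ∧
      ∀ H : Set ℕ, H.Infinite → (∀ x ∈ H, 0 < x) →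
        (∃ R : ℕ × ℕ × ℕ × ℕ × ℕ → Prop, ComputablePred R ∧
          ∀ n, n ∈ H ↔ ∃ a, ∀ b, ∃ c, ∀ d, R (n, a, b, c, d)) →
        (∃ R : ℕ × ℕ × ℕ × ℕ × ℕ → Prop, ComputablePred R ∧
          ∀ n, n ∈ H ↔ ∀ a, ∃ b, ∀ c, ∃ d, R (n, a, b, c, d)) →
        ¬ ∃ i : ℕ, ∀ F : Finset ℕ, F.Nonempty → (↑F : Set ℕ) ⊆ H →
            col (∑ x ∈ F, x) = i := by
  refine ⟨2, Pool.Agent.MP_0ee11a_lc.colD Pool.Agent.MP_0ee11a_lc.chosen,
    Pool.Agent.MP_0ee11a_lc.colD_computable _ Pool.Agent.MP_0ee11a_lc.c_chosen,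
    fun n => Nat.mod_lt _ two_pos, ?_⟩
  rintro H hH hpos ⟨R, hR, hHR⟩ -
  exact Pool.Agent.MP_0ee11a_lc.no_solution H hH hpos hR hHR

end Pool.Agent.S14377
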