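import Pool.Statements.S14775
import Pool.Agent.MP_5fa381_lc.Family

set_option autoImplicit false
open Pool Pool.MP_5fa381_lc

namespace Pool.Agent.S14775

/-- There is a family of finite subsets of ω₁, compact in the product topology of {0,1}^ω₁, closed under subsets, containing all singletons, such that every finite set A has a member B ⊆ A with 2∣B∣ ≥ ∣A∣. -/
theorem result :
    ∃ X : Type, Cardinal.mk X = Cardinal.aleph 1 ∧
      ∃ K : Set (X → Bool),
        IsCompact K ∧
        (∀ f ∈ K, {x : X | f x = true}.Finite) ∧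
        (∀ f ∈ K, ∀ g : X → Bool, (∀ x, g x = true → f x = true) → g ∈ K) ∧
        (∀ x : X, ∃ f ∈ K, {y : X | f y = true} = {x}) ∧
        (∀ A : Finset X, ∃ f ∈ K, ∃ B : Finset X,
          B ⊆ A ∧ A.card ≤ 2 * B.card ∧ ∀ y : X, f y = true ↔ y ∈ B) := by
  classical
  have hc : ∀ z : (Cardinal.aleph.{0} 1).ord.ToType, (Set.Iio z).Countable := by
    intro z
    rw [Cardinal.countable_iff_lt_aleph_one]
    simpa using Cardinal.mk_Iio_lt z (by simp)
  obtain ⟨r, hr⟩ := Pool.Agent.MP_5fa381_lc.exists_sys hc
  refine ⟨(Cardinal.aleph.{0} 1).ord.ToType, Cardinal.mk_ord_toType _,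
    {f | ∀ t : Finset (Cardinal.aleph.{0} 1).ord.ToType, (∀ x ∈ t, f x = true) →
      Pool.Agent.MP_5fa381_lc.Good r t}, ?_, ?_, ?_, ?_, ?_⟩
  · apply IsClosed.isCompact
    rw [Set.setOf_forall]
    refine isClosed_iInter (fun t => ?_)
    by_cases ht : Pool.Agent.MP_5fa381_lc.Good r t
    · simp [ht]
    · have h1 : IsOpen {f : (Cardinal.aleph.{0} 1).ord.ToType → Bool | ∀ x ∈ t, f x = true} := by
        have : {f : (Cardinal.aleph.{0} 1).ord.ToType → Bool | ∀ x ∈ t, f x = true} =
            ⋂ x ∈ t, (fun f : (Cardinal.aleph.{0} 1).ord.ToType → Bool => f x) ⁻¹' {true} := by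
          ext f
          simp
        rw [this]
        exact isOpen_biInter_finset
          (fun x _ => (isOpen_discrete _).preimage (continuous_apply x))
      have h2 := h1.isClosed_compl
      convert h2 using 1
      ext f
      simp only [Set.mem_ofPred_eq, Set.mem_compl_iff]
      exact ⟨fun h h' => ht (h h'), fun h h' => absurd h' h⟩
  · intro f hf
    exact Pool.Agent.MP_5fa381_lc.finite_of_good hr (fun t ht => hf t (fun x hx => ht hx))
  · intro f hf g hg t ht
    exact hf t (fun x hx => hg x (ht x hx))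
  · intro x
    obtain ⟨B, hB, hcard, hgood⟩ := Pool.Agent.MP_5fa381_lc.half hr {x}
    have hBx : B = {x} := by
      rcases Finset.subset_singleton_iff.mp hB with h | h
      · rw [h] at hcard
        simp at hcard
      · exact h
    refine ⟨fun y => decide (y ∈ B), fun t ht => hgood.anti (fun y hy => by simpa using ht y hy), ?_⟩
    ext y
    simp [hBx]
  · intro A
    obtain ⟨B, hB, hcard, hgood⟩ := Pool.Agent.MP_5fa381_lc.half hr A
    exact ⟨fun y => decide (y ∈ B), fun t ht => hgood.anti (fun y hy => by simpa using ht y hy),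
      B, hB, hcard, fun y => by simp⟩

end Pool.Agent.S14775
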