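import Pool.Statements.S14845
import Pool.Agent.MP_68d28f_lc.ce.Glue
import Pool.Agent.MP_68d28f_lc.ce.T2
import Pool.Agent.MP_68d28f_lc.ce.T3
import Pool.Agent.MP_68d28f_lc.ce.t1.Inv
import Pool.Agent.MP_68d28f_lc.ce.t1.Path
import Pool.Agent.MP_68d28f_lc.ce.t1.Impl
import Pool.Agent.MP_68d28f_lc.ce.t1.Main
import Pool.Agent.MP_68d28f_lc.ce.t4.Main

set_option autoImplicit false
open FirstOrder FirstOrder.Language
open Pool Pool.MP_68d28f_lc

namespace Pool.Agent.S14845

/-- Some first-order order formula without parameters, evaluated in the partial order of Turing degrees of sets below the halting set, holds exactly at the degrees of recursively enumerable sets. -/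
theorem result :
    ∃ φ : Language.order.Formula (Fin 1),
      ∀ [S : Language.order.Structure
          {d : TuringDegree // ∃ A : Set ℕ,
            d = toAntisymmetrization (TuringReducible : (ℕ →. ℕ) → (ℕ →. ℕ) → Prop)
                  (fun n : ℕ => Part.some (A.indicator (fun _ => (1 : ℕ)) n)) ∧
            d ≤ toAntisymmetrization (TuringReducible : (ℕ →. ℕ) → (ℕ →. ℕ) → Prop)
                  (fun n : ℕ => Part.some
                    ({m : ℕ | ((Denumerable.ofNat Nat.Partrec.Code m).eval m).Dom}.indicator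
                      (fun _ => (1 : ℕ)) n))}],
        (∀ x y : {d : TuringDegree // ∃ A : Set ℕ,
            d = toAntisymmetrization (TuringReducible : (ℕ →. ℕ) → (ℕ →. ℕ) → Prop)
                  (fun n : ℕ => Part.some (A.indicator (fun _ => (1 : ℕ)) n)) ∧
            d ≤ toAntisymmetrization (TuringReducible : (ℕ →. ℕ) → (ℕ →. ℕ) → Prop)
                  (fun n : ℕ => Part.some
                    ({m : ℕ | ((Denumerable.ofNat Nat.Partrec.Code m).eval m).Dom}.indicator
                      (fun _ => (1 : ℕ)) n))},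
            Structure.RelMap (L := Language.order) Language.leSymb ![x, y] ↔ x.1 ≤ y.1) →
        ∀ x : {d : TuringDegree // ∃ A : Set ℕ,
            d = toAntisymmetrization (TuringReducible : (ℕ →. ℕ) → (ℕ →. ℕ) → Prop)
                  (fun n : ℕ => Part.some (A.indicator (fun _ => (1 : ℕ)) n)) ∧
            d ≤ toAntisymmetrization (TuringReducible : (ℕ →. ℕ) → (ℕ →. ℕ) → Prop)
                  (fun n : ℕ => Part.some
                    ({m : ℕ | ((Denumerable.ofNat Nat.Partrec.Code m).eval m).Dom}.indicator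
                      (fun _ => (1 : ℕ)) n))},
          φ.Realize (fun _ => x) ↔
            ∃ A : Set ℕ,
              (∃ c : Nat.Partrec.Code, ∀ n : ℕ, n ∈ A ↔ (c.eval n).Dom) ∧
              x.1 = toAntisymmetrization (TuringReducible : (ℕ →. ℕ) → (ℕ →. ℕ) → Prop)
                  (fun n : ℕ => Part.some (A.indicator (fun _ => (1 : ℕ)) n)) := by
  exact Pool.Agent.MP_68d28f_lc.CE.glue
    (Pool.Agent.MP_68d28f_lc.CE.Meet.stMain Pool.Agent.MP_68d28f_lc.CE.Meet.stInv
      Pool.Agent.MP_68d28f_lc.CE.Meet.stPath Pool.Agent.MP_68d28f_lc.CE.Meet.stImpl)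
    Pool.Agent.MP_68d28f_lc.CE.t2 Pool.Agent.MP_68d28f_lc.CE.t3 Pool.Agent.MP_68d28f_lc.CE.t4

end Pool.Agent.S14845
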