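import Pool.Statements.S15245
import Pool.Agent.MP_b25485_lc.Blocks

set_option autoImplicit false
open Pool Pool.MP_b25485_lc
open Pool.Agent.MP_b25485_lc

namespace Pool.Agent.S15245

/-- For every countably infinite field F, every full block filter on the countable-dimensional F-vector space that is a (p)-filter is also a strong (p)-filter, i.e. every (p⁺)-filter is a strong (p⁺)-filter. -/
theorem result :
  ∀ (F : Type) [Field F] [Countable F] [Infinite F] (𝓕 : Filter (ℕ →₀ F)),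
    𝓕.NeBot →
    ({0}ᶜ : Set (ℕ →₀ F)) ∈ 𝓕 →
    (∀ V : Submodule F (ℕ →₀ F), FiniteDimensional F ((ℕ →₀ F) ⧸ V) →
        ((V : Set (ℕ →₀ F)) \ {0}) ∈ 𝓕) →
    (∀ A ∈ 𝓕, ∃ X : ℕ → (ℕ →₀ F),
        (∀ n, X n ≠ 0 ∧ ∀ i ∈ (X n).support, ∀ j ∈ (X (n+1)).support, i < j) ∧
        ((Submodule.span F (Set.range X) : Set (ℕ →₀ F)) \ {0}) ∈ 𝓕 ∧
        ((Submodule.span F (Set.range X) : Set (ℕ →₀ F)) \ {0}) ⊆ A) →
    (∀ D : Set (ℕ →₀ F),
        (∀ X : ℕ → (ℕ →₀ F),
          (∀ n, X n ≠ 0 ∧ ∀ i ∈ (X n).support, ∀ j ∈ (X (n+1)).support, i < j) →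
          ((Submodule.span F (Set.range X) : Set (ℕ →₀ F)) \ {0}) ∈ 𝓕 →
          ∃ V : Submodule F (ℕ →₀ F), ¬ FiniteDimensional F V ∧
            ((V : Set (ℕ →₀ F)) \ {0}) ⊆ ((Submodule.span F (Set.range X) : Set (ℕ →₀ F)) \ {0}) ∧
            ((V : Set (ℕ →₀ F)) \ {0}) ⊆ D) →
        D ∈ 𝓕) →
    (∀ Xs : ℕ → ℕ → (ℕ →₀ F),
        (∀ m, (∀ n, Xs m n ≠ 0 ∧ ∀ i ∈ (Xs m n).support, ∀ j ∈ (Xs m (n+1)).support, i < j) ∧
          ((Submodule.span F (Set.range (Xs m)) : Set (ℕ →₀ F)) \ {0}) ∈ 𝓕) →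
        ∃ X : ℕ → (ℕ →₀ F),
          (∀ n, X n ≠ 0 ∧ ∀ i ∈ (X n).support, ∀ j ∈ (X (n+1)).support, i < j) ∧
          ((Submodule.span F (Set.range X) : Set (ℕ →₀ F)) \ {0}) ∈ 𝓕 ∧
          ∀ m, ∃ k : ℕ, Submodule.span F (Set.range (fun n : ℕ => X (n + k))) ≤
            Submodule.span F (Set.range (Xs m))) →
    (∀ Y : List (ℕ →₀ F) → ℕ → (ℕ →₀ F),
        (∀ l, (∀ n, Y l n ≠ 0 ∧ ∀ i ∈ (Y l n).support, ∀ j ∈ (Y l (n+1)).support, i < j) ∧
          ((Submodule.span F (Set.range (Y l)) : Set (ℕ →₀ F)) \ {0}) ∈ 𝓕) →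
        ∃ X : ℕ → (ℕ →₀ F),
          (∀ n, X n ≠ 0 ∧ ∀ i ∈ (X n).support, ∀ j ∈ (X (n+1)).support, i < j) ∧
          ((Submodule.span F (Set.range X) : Set (ℕ →₀ F)) \ {0}) ∈ 𝓕 ∧
          ∀ k : ℕ, Submodule.span F (Set.range (fun n : ℕ => X (n + k))) ≤
            Submodule.span F (Set.range (Y (List.ofFn (fun i : Fin k => X i.val))))) := by
  intro F _ _ _ 𝓕 _ _ _ hbase hfull hp Y hY
  classical
  -- a pseudo-intersection `B` of all the `Y l`
  obtain ⟨enum, henum⟩ := exists_surjective_nat (List (ℕ →₀ F))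
  obtain ⟨B, hB, hBF, hBY⟩ := hp (fun m => Y (enum m)) (fun m => hY (enum m))
  have hBY' : ∀ l, ∃ N : ℕ, ∀ v ∈ Submodule.span F (Set.range B), (∀ j ∈ v.support, N < j) →
      v ∈ Submodule.span F (Set.range (Y l)) := by
    intro l
    obtain ⟨m, rfl⟩ := henum l
    obtain ⟨k, hk⟩ := hBY m
    exact ⟨(B k).support.sup id, fun v hv hN => hk (mem_span_tail hB k hv hN)⟩
  choose N hN using hBY'
  obtain ⟨ψ, hψ⟩ := exists_gauge (lo (F := F)) N
  set φ : (ℕ →₀ F) → ℕ := fun u => max (ψ (rep u)) (u.support.sup id) with hφdef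
  have hφ : ∀ u, ∀ i ∈ u.support, i ≤ φ u := fun u i hi =>
    (Finset.le_sup (f := id) hi).trans (le_max_right _ _)
  have hφs : ∀ u, ∀ a : F, a ≠ 0 → φ (a • u) = φ u := by
    intro u a ha
    simp only [hφdef, rep_smul u ha, Finsupp.support_smul_eq ha]
  set W : Submodule F (ℕ →₀ F) :=
    Submodule.span F (Set.range B) ⊓ Submodule.span F (Set.range (Y [])) with hW
  -- the set of vectors with a good decomposition is dense, hence in the filter
  have hD : {v | ∃ s u, Dec W φ s u v} ∈ 𝓕 := by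
    refine hfull _ (fun X _ hXF => ?_)
    obtain ⟨Z, hZ, -, hZs⟩ := hbase _ (Filter.inter_mem hXF (Filter.inter_mem hBF (hY []).2))
    have hZW : Submodule.span F (Set.range Z) ≤ W := by
      intro v hv
      by_cases h0 : v = 0
      · exact h0 ▸ W.zero_mem
      · have := hZs ⟨hv, h0⟩
        exact ⟨this.2.1.1, this.2.2.1⟩
    obtain ⟨V, hV1, hV2, hV3⟩ := exists_dense hφ hφs hZ hZW
    exact ⟨V, hV1, fun v hv => (hZs ⟨hV2 hv.1, hv.2⟩).1, fun v hv => hV3 v hv.1⟩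
  obtain ⟨w, hw, hwF, hwD⟩ := hbase _ hD
  have hw' : IsBlock w := hw
  -- each `w n` has a good decomposition ending well before `w (n + 1)`
  have hdec : ∀ n, ∃ s u, Dec W φ s u (w n) ∧ ∀ i ∈ s, ∀ j ∈ (w (n + 1)).support, φ (u i) < j := by
    intro n
    obtain ⟨t, ht⟩ := Infinite.exists_notMem_finset (insert (0 : F)
      (((w n).support ×ˢ (w (n + 1)).support).image (fun p => w n p.1 / w (n + 1) p.2)))
    have ht0 : t ≠ 0 := fun h => ht (h ▸ Finset.mem_insert_self _ _)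
    have ht1 : ∀ i ∈ (w n).support, ∀ j ∈ (w (n + 1)).support, t ≠ w n i / w (n + 1) j :=
      fun i hi j hj h => ht (Finset.mem_insert_of_mem
        (Finset.mem_image.2 ⟨(i, j), Finset.mem_product.2 ⟨hi, hj⟩, h.symm⟩))
    have hne : w n + t • w (n + 1) ≠ 0 := by
      obtain ⟨i, hi⟩ := exists_mem_support (hw n).1
      intro h
      have h1 : w (n + 1) i = 0 := by
        by_contra hne
        exact lt_irrefl _ ((hw n).2 i hi i (Finsupp.mem_support_iff.2 hne))
      have h2 := DFunLike.congr_fun h i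
      simp only [Finsupp.add_apply, Finsupp.smul_apply, h1, smul_zero, add_zero,
        Finsupp.zero_apply] at h2
      exact Finsupp.mem_support_iff.1 hi h2
    obtain ⟨s, u, hsu⟩ := hwD ⟨Submodule.add_mem _ (Submodule.subset_span ⟨n, rfl⟩)
      (Submodule.smul_mem _ t (Submodule.subset_span ⟨n + 1, rfl⟩)), hne⟩
    obtain ⟨s', h1, h2⟩ := hsu.split hφ (hw n).2 ht0 ht1
    exact ⟨s', u, h1, h2⟩
  choose s u hsu hgap using hdec
  have hsub : ∀ n, ∀ i ∈ s n, ∀ k ∈ (u n i).support, k ∈ (w n).support := by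
    intro n i hi k hk
    rw [Finsupp.mem_support_iff, (hsu n).apply hφ hi hk]
    exact Finsupp.mem_support_iff.1 hk
  have hcross : ∀ m n, m < n → ∀ i ∈ s m, ∀ j ∈ s n, ∀ k ∈ (u n j).support, φ (u m i) < k := by
    intro m n hmn i hi j hj k hk
    have hk' := hsub n j hj k hk
    rcases (Nat.succ_le_of_lt hmn).eq_or_lt with he | hlt
    · exact hgap m i hi k (by rw [show m + 1 = n from he]; exact hk')
    · obtain ⟨a, ha⟩ := exists_mem_support (hw (m + 1)).1
      exact (hgap m i hi a ha).trans (hw'.below hlt a ha k hk')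
  obtain ⟨X, hXS, hXgap⟩ := exists_enum (φ := φ) hφ (S := {v | ∃ n, ∃ i ∈ s n, u n i = v})
    (by
      rintro _ ⟨n, i, hi, rfl⟩
      exact ((hsu n).2.1 i hi).1.ne_zero)
    (by
      rintro _ ⟨m, i, hi, rfl⟩ _ ⟨n, j, hj, rfl⟩
      rcases lt_trichotomy m n with h | rfl | h
      · exact Or.inr (Or.inl (hcross m n h i hi j hj))
      · rcases lt_trichotomy i j with h | rfl | h
        · exact Or.inr (Or.inl ((hsu m).2.2 i hi j hj h))
        · exact Or.inl rfl
        · exact Or.inr (Or.inr ((hsu m).2.2 j hj i hi h))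
      · exact Or.inr (Or.inr (hcross n m h j hj i hi)))
    (by
      intro n
      have hne : (s n).Nonempty := by
        rw [Finset.nonempty_iff_ne_empty]
        intro h
        have := (hsu n).1
        rw [h, Finset.sum_empty] at this
        exact (hw n).1 this.symm
      obtain ⟨i, hi⟩ := hne
      exact ⟨u n i, ⟨n, i, hi, rfl⟩,
        hw'.le_of_mem n _ (hsub n i hi _ (lo_mem ((hsu n).2.1 i hi).1.ne_zero))⟩)
  have hXmem : ∀ k, X k ≠ 0 ∧ X k ∈ W := by
    intro k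
    have : X k ∈ Set.range X := ⟨k, rfl⟩
    rw [hXS] at this
    obtain ⟨n, i, hi, he⟩ := this
    exact he ▸ ⟨((hsu n).2.1 i hi).1.ne_zero, ((hsu n).2.1 i hi).2⟩
  have hrepW : ∀ k, rep (X k) ∈ W := by
    intro k
    obtain ⟨c, -, hc⟩ := rep_spec (X k)
    rw [hc]
    exact W.smul_mem _ (hXmem k).2
  have hrep0 : ∀ k, rep (X k) ≠ 0 := by
    intro k h
    have := support_rep (X k)
    rw [h, Finsupp.support_zero] at this
    exact (hXmem k).1 (Finsupp.support_eq_empty.1 this.symm)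
  refine ⟨fun k => rep (X k), fun k => ⟨hrep0 k, fun i hi j hj => ?_⟩, ?_, ?_⟩
  · rw [support_rep] at hi hj
    exact lt_of_le_of_lt (hφ _ i hi) (hXgap k (k + 1) (Nat.lt_succ_self k) j hj)
  · refine Filter.mem_of_superset hwF (Set.sdiff_subset_sdiff_left ?_)
    refine SetLike.coe_subset_coe.2 (Submodule.span_le.2 ?_)
    rintro _ ⟨n, rfl⟩
    rw [← (hsu n).1]
    refine Submodule.sum_mem _ (fun i hi => ?_)
    have : u n i ∈ Set.range X := by
      rw [hXS]
      exact ⟨n, i, hi, rfl⟩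
    obtain ⟨k, hk⟩ := this
    obtain ⟨c, hc0, hc⟩ := rep_spec (X k)
    have e : u n i = c⁻¹ • rep (X k) := by
      rw [hc, smul_smul, inv_mul_cancel₀ hc0, one_smul, hk]
    rw [e]
    exact Submodule.smul_mem _ _ (Submodule.subset_span ⟨k, rfl⟩)
  · intro k
    refine Submodule.span_le.2 ?_
    rintro _ ⟨n, rfl⟩
    cases k with
    | zero => exact (hrepW _).2
    | succ k =>
      refine hN _ _ (hrepW _).1 (fun j hj => ?_)
      have h1 := hψ (fun k => rep (X k)) (fun k => lt_of_le_of_lt (le_max_left _ _)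
        (hXgap k (k + 1) (Nat.lt_succ_self k) _
          (support_rep (X (k + 1)) ▸ lo_mem (hrep0 (k + 1))))) k
      rw [support_rep] at hj
      exact lt_of_le_of_lt (h1.trans (le_max_left _ _)) (hXgap k (n + (k + 1)) (by omega) j hj)

end Pool.Agent.S15245
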