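import Pool.Statements.S15321
import Pool.Agent.MP_c33acd_lc.Prime

set_option autoImplicit false
open FirstOrder FirstOrder.Language
open Pool Pool.MP_c33acd_lc

namespace Pool.Agent.S15321

/-- For every n ≥ 2, the free solvable group of class 3 on n generators, viewed as a structure in the language of products, elementarily embeds into every model of its complete first-order theory, i.e. it is a prime model. -/
theorem result :
    ∀ (L : FirstOrder.Language.{0,0}), L = ⟨fun _ => Unit, fun _ => Empty⟩ →
    ∀ n : ℕ, 2 ≤ n →
    ∀ [S : L.Structure (FreeGroup (Fin n) ⧸ derivedSeries (FreeGroup (Fin n)) 3)],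
      S = ⟨fun _ x => (List.ofFn x).prod, fun _ _ => False⟩ →
    ∀ (N : Type) [L.Structure N],
      N ⊨ L.completeTheory (FreeGroup (Fin n) ⧸ derivedSeries (FreeGroup (Fin n)) 3) →
      Nonempty ((FreeGroup (Fin n) ⧸ derivedSeries (FreeGroup (Fin n)) 3) ↪ₑ[L] N) := by
  intro L hL n hn S hS N _ hN
  subst hL
  exact Pool.Agent.MP_c33acd_lc.prime_FS hn (fun _ _ _ => by subst hS; rfl) N hN

end Pool.Agent.S15321
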