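import Pool.Statements.S15587
import Pool.Agent.MP_ede9a8_lc.GY

set_option autoImplicit false
open Pool Pool.MP_ede9a8_lc

namespace Pool.Agent.S15587

theorem result :
    ∀ (G : Type) [Group G] [TopologicalSpace G] [IsTopologicalGroup G] [PolishSpace G]
      [MeasurableSpace G] [BorelSpace G] (N : Subgroup G), N.Normal →
      (∃ τ : TopologicalSpace (↥N), @IsTopologicalGroup (↥N) τ _ ∧ @PolishSpace (↥N) τ ∧
          @LocallyCompactSpace (↥N) τ ∧ @Continuous (↥N) G τ _ Subtype.val) →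
      ∃ f : ℕ → G → ℝ, (∀ n, Measurable (f n)) ∧
        (∀ n x y, f n x = f n y → f (n + 1) x = f (n + 1) y) ∧
        ∀ x y : G, x⁻¹ * y ∈ N ↔ ∃ n, f n x = f n y := by
  intro G _ _ _ _ m _ N hN ⟨τ, h1, h2, h3, h4⟩
  obtain ⟨T, hT⟩ := @Pool.Agent.MP_ede9a8_lc.exists_tri G N _ _ _ _ _ _ τ h1
    (by let _ := τ; infer_instance) h3 (by let _ := τ; infer_instance) N.subtype
    Subtype.val_injective h4 fun g n => ⟨⟨_, hN.conj_mem _ n.2 g⟩, rfl⟩
  obtain ⟨f, a1, a2, a3⟩ := @Pool.Agent.MP_ede9a8_lc.Tri.main N _ τ h1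
    (by let _ := τ; infer_instance) h3 (by let _ := τ; infer_instance) G _ _ _ _ _ T
  refine ⟨f, fun n => ?_, a2, fun x y => Iff.trans ?_ (a3 x y)⟩
  · rw [BorelSpace.measurable_eq (α := G)]
    exact a1 n
  · rw [hT, hN.mem_comm_iff]
    refine ⟨fun h => ⟨⟨_, h⟩, by simp⟩, ?_⟩
    rintro ⟨n, rfl⟩
    simp

end Pool.Agent.S15587
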