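import Pool.Statements.S15877
import Pool.Agent.MP_03368a_nt.Seq

set_option autoImplicit false
open Pool Pool.MP_03368a_nt

namespace Pool.Agent.S15877

/-- For every v in [1,2] there is a real number, not algebraic of degree at most 2, whose uniform exponent of approximation by real algebraic numbers of degree at most 2 (hat w_2^*) equals exactly v. -/
theorem result :
    ∀ v : ℝ, 1 ≤ v → v ≤ 2 → ∃ ξ : ℝ,
      (∀ Q : Polynomial ℤ, Q ≠ 0 → Q.natDegree ≤ 2 → Polynomial.aeval ξ Q ≠ 0) ∧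
      (∀ w : ℝ, w < v →
        ∃ H₀ : ℝ, ∀ H : ℝ, H₀ ≤ H →
          ∃ P : Polynomial ℤ, ∃ α : ℝ, ∃ h : ℤ,
            Irreducible P ∧ P.natDegree ≤ 2 ∧ Polynomial.aeval α P = 0 ∧
            (∀ i : ℕ, |P.coeff i| ≤ h) ∧ (∃ i : ℕ, |P.coeff i| = h) ∧
            (h : ℝ) ≤ H ∧ 0 < |ξ - α| ∧ |ξ - α| ≤ (h : ℝ)⁻¹ * H ^ (-w)) ∧
      (∀ w : ℝ, v < w →
        ¬ ∃ H₀ : ℝ, ∀ H : ℝ, H₀ ≤ H →
          ∃ P : Polynomial ℤ, ∃ α : ℝ, ∃ h : ℤ,
            Irreducible P ∧ P.natDegree ≤ 2 ∧ Polynomial.aeval α P = 0 ∧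
            (∀ i : ℕ, |P.coeff i| ≤ h) ∧ (∃ i : ℕ, |P.coeff i| = h) ∧
            (h : ℝ) ≤ H ∧ 0 < |ξ - α| ∧ |ξ - α| ≤ (h : ℝ)⁻¹ * H ^ (-w)) := by
  intro v hv1 hv2
  obtain ⟨p, q, B, a, b, c, α, hk⟩ := Pool.Agent.MP_03368a_nt.exists_seq (fun k => max (v - 1) (1 / (k + 1)))
    (fun k => lt_max_of_lt_right (by positivity))
    (fun k => max_le (by linarith) (by
      rw [div_le_one (by positivity)]; linarith [(Nat.cast_nonneg k : (0 : ℝ) ≤ k)]))
  have hq : ∀ k, (2 : ℝ) ≤ q k := fun k => by exact_mod_cast (hk k).1.2.2.1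
  have hB : ∀ k, (q k : ℝ) ≤ B k := fun k => by exact_mod_cast (hk k).2.1.1
  have hB1 : ∀ k, (1 : ℝ) ≤ B k := fun k => by linarith [hq k, hB k]
  have hgrow : ∀ k, (18 * B k : ℝ) ^ 2 ≤ q (k + 1) := fun k =>
    (pow_le_pow_right₀ (by linarith [hB1 k]) (by omega)).trans (hk k).2.2.2.2.2.1
  obtain ⟨ξ, hξ⟩ := Pool.Agent.MP_03368a_nt.exists_xi (fun k => p k / q k) α (fun k => q k)
    (fun k => B k) hq hB (fun k => (hk k).2.2.2.1) (fun k => (hk k).2.2.2.2.1) hgrow
    (fun k => (hk k).2.2.2.2.2.2)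
  have hsucc : ∀ k, (q k : ℝ) + 1 ≤ q (k + 1) := fun k => by
    nlinarith [hgrow k, hB k, hB1 k]
  have hqk : ∀ k : ℕ, (k : ℝ) ≤ q k := fun k => by
    induction k with
    | zero => simp only [Nat.cast_zero]; linarith [hq 0]
    | succ k ih => push_cast; linarith [hsucc k]
  have hmono : Monotone fun k => (q k : ℝ) :=
    monotone_nat_of_le_succ fun k => by linarith [hsucc k]
  have hBt : Filter.Tendsto (fun k => (B k : ℝ)) Filter.atTop Filter.atTop :=
    Filter.tendsto_atTop_mono (fun k => (hqk k).trans (hB k)) tendsto_natCast_atTop_atTop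
  have hA : ∀ k (a b c h : ℤ) (β : ℝ), (a ≠ 0 ∨ b ≠ 0 ∨ c ≠ 0) → |a| ≤ h → |b| ≤ h →
      a * β ^ 2 + b * β + c = 0 → (h : ℝ) ≤ B k / 24 →
      1 / (12 * B k * q k : ℝ) ≤ h * |ξ - β| := by
    intro k a b c h β hne ha hb hβ hh
    have q2 := hq k
    have B2 := hB k
    have B1 := hB1 k
    obtain ⟨x1, x2, -⟩ := hξ k
    have h0 : (0 : ℝ) ≤ h := by exact_mod_cast (abs_nonneg a).trans ha
    rcases Pool.Agent.MP_03368a_nt.gap (p k) (q k) (hk k).1.1 (hk k).1.2.1 (hk k).1.2.2.2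
      a b c h β hne ha hb hβ with ⟨rfl, h1⟩ | h1
    · have h1R : (q k : ℝ) ≤ h := by exact_mod_cast h1
      calc 1 / (12 * B k * q k : ℝ) = q k * (1 / (12 * B k * q k ^ 2)) := by field_simp
        _ ≤ _ := by gcongr
    · have t1 : |(p k : ℝ) / q k - β| ≤ |ξ - β| + |ξ - p k / q k| := by
        have := abs_sub_le ((p k : ℝ) / q k) ξ β
        rw [abs_sub_comm ((p k : ℝ) / q k) ξ] at this
        linarith
      have t2 : h * |ξ - p k / q k| ≤ B k / 24 * (3 / (B k * q k ^ 2)) := by gcongr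
      have t3 : (B k : ℝ) / 24 * (3 / (B k * q k ^ 2)) = 1 / (8 * q k ^ 2) := by
        have := hB1 k
        field_simp; norm_num
      have t4 : 1 / (12 * B k * q k : ℝ) ≤ 1 / (8 * q k ^ 2) :=
        one_div_le_one_div_of_le (by positivity) (by nlinarith)
      have t5 : 1 / (4 * (q k : ℝ) ^ 2) = 2 * (1 / (8 * q k ^ 2)) := by field_simp; norm_num
      have t6 : h * |(p k : ℝ) / q k - β| ≤ h * (|ξ - β| + |ξ - p k / q k|) := by gcongr
      linarith
  have hN : ∀ Q : Polynomial ℤ, Q ≠ 0 → Q.natDegree ≤ 2 → Polynomial.aeval ξ Q ≠ 0 := by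
    intro Q hQ0 hQ2 hQ
    obtain ⟨u1, u2⟩ := Pool.Agent.MP_03368a_nt.unpack Q hQ0 hQ2 ξ hQ
    obtain ⟨k, hk'⟩ := (hBt.eventually_ge_atTop
      (24 * ((max |Q.coeff 2| |Q.coeff 1| : ℤ) : ℝ))).exists
    have := hA k _ _ _ (max |Q.coeff 2| |Q.coeff 1|) ξ u1 (le_max_left _ _) (le_max_right _ _) u2
      (by linarith)
    rw [sub_self, abs_zero, mul_zero] at this
    have h1 := hq k
    have h2 := hB1 k
    exact absurd this (not_le.2 (by positivity))
  refine ⟨ξ, hN, fun w hw => ?_, fun w hw => ?_⟩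
  · set u := max w 0 with hu
    have hu0 : 0 ≤ u := le_max_right _ _
    have huv : u < v := max_lt hw (by linarith)
    have ev1 : ∀ᶠ k in Filter.atTop, (216 : ℝ) ≤ (B k : ℝ) ^ (v - u) :=
      ((tendsto_rpow_atTop (sub_pos.2 huv)).comp hBt).eventually_ge_atTop 216
    have ev2 : ∀ᶠ k : ℕ in Filter.atTop, 1 / (2 - u) ≤ (k : ℝ) :=
      tendsto_natCast_atTop_atTop.eventually_ge_atTop _
    obtain ⟨k0, hk0⟩ := Filter.eventually_atTop.1 (ev1.and ev2)
    refine ⟨q k0, fun H hH => ?_⟩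
    have hex : ∃ k, H < q (k + 1) := by
      obtain ⟨n, hn⟩ := exists_nat_gt H
      exact ⟨n, by linarith [hqk n, hsucc n]⟩
    classical
    have hk1 := Nat.find_spec hex
    have hk2 : k0 ≤ Nat.find hex := by
      by_contra hc
      have := hmono (show Nat.find hex + 1 ≤ k0 by omega)
      simp only at this
      linarith
    have hk3 : (q (Nat.find hex) : ℝ) ≤ H := by
      rcases Nat.eq_zero_or_pos (Nat.find hex) with h0 | h0
      · have : k0 = 0 := by omega
        rw [h0, ← this]; exact hH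
      · have := Nat.find_min hex (show Nat.find hex - 1 < Nat.find hex by omega)
        rw [show Nat.find hex - 1 + 1 = Nat.find hex by omega] at this
        exact not_lt.1 this
    generalize Nat.find hex = k at hk1 hk2 hk3
    obtain ⟨e1, e2⟩ := hk0 k hk2
    have q2 := hq k
    have q3 := hq (k + 1)
    have B1 := hB1 k
    have hH1 : 1 ≤ H := by linarith
    have hw' : H ^ (-u) ≤ H ^ (-w) :=
      Real.rpow_le_rpow_of_exponent_le hH1 (neg_le_neg (le_max_left _ _))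
    obtain ⟨x1, -, x3⟩ := hξ k
    by_cases hc : H ≤ 6 * B k
    · refine Pool.Agent.MP_03368a_nt.good_of ξ w H hN 0 (q k) (-p k) (q k) (p k / q k)
        (Pool.Agent.MP_03368a_nt.irred_lin _ _ (by have := (hk k).1.2.2.1; omega) (hk k).1.2.2.2)
        (by push_cast; field_simp; ring) (by have := (hk k).1.2.2.1; simp only [abs_zero]; omega)
        (by rw [abs_of_pos (by have := (hk k).1.2.2.1; omega)])
        (by rw [abs_neg, abs_of_pos (hk k).1.1]; exact (hk k).1.2.1) hk3 (le_trans ?_ hw')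
      have s1 : (6 * B k : ℝ) ^ (-u) ≤ H ^ (-u) :=
        Real.rpow_le_rpow_of_nonpos (by linarith) hc (by linarith)
      refine le_trans ?_ s1
      have s2 : (6 * B k : ℝ) ^ u ≤ 36 * (B k : ℝ) ^ u := by
        rw [Real.mul_rpow (by norm_num) (by linarith)]
        have : (6 : ℝ) ^ u ≤ 6 ^ (2 : ℝ) :=
          Real.rpow_le_rpow_of_exponent_le (by norm_num) (by linarith)
        have e : (6 : ℝ) ^ (2 : ℝ) = 36 := by norm_num
        rw [e] at this
        gcongr
      have s3 : (B k : ℝ) ^ v ≤ B k * (2 * q k) := by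
        have : (B k : ℝ) ^ v = B k * (B k : ℝ) ^ (v - 1) := by
          rw [← Real.rpow_one_add' (by linarith) (by linarith)]; congr 1; ring
        rw [this]
        gcongr
        exact (Real.rpow_le_rpow_of_exponent_le B1 (le_max_left _ _)).trans (hk k).2.1.2.2
      have s4 : (B k : ℝ) ^ v = (B k : ℝ) ^ u * (B k : ℝ) ^ (v - u) := by
        rw [← Real.rpow_add (by linarith)]; congr 1; ring
      have s5 : 0 < (B k : ℝ) ^ u := by positivity
      have s6 : 0 < (6 * B k : ℝ) ^ u := by positivity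
      rw [Real.rpow_neg (by linarith), ← one_div, le_div_iff₀ s6]
      have s7 : 3 * (6 * B k : ℝ) ^ u ≤ B k * q k := by nlinarith
      calc (q k : ℝ) * |ξ - p k / q k| * (6 * B k : ℝ) ^ u
          ≤ q k * (3 / (B k * q k ^ 2)) * (6 * B k : ℝ) ^ u := by gcongr
        _ = 3 * (6 * B k : ℝ) ^ u / (B k * q k) := by field_simp
        _ ≤ 1 := by rw [div_le_one (by positivity)]; exact s7
    · obtain ⟨i1, i2, i3, i4, i5⟩ := (hk k).2.2.1
      refine Pool.Agent.MP_03368a_nt.good_of ξ w H hN (a k) (b k) (c k) (6 * B k) (α k) i1 i2 i3 i4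
        i5 (by push_cast; linarith) (le_trans ?_ hw')
      have s1 : (q (k + 1) : ℝ) ^ (-u) ≤ H ^ (-u) :=
        Real.rpow_le_rpow_of_nonpos (by linarith) hk1.le (by linarith)
      refine le_trans ?_ s1
      have s2 : (18 * B k : ℝ) ≤ (q (k + 1) : ℝ) ^ (2 - u) := by
        have g1 : ((18 * B k : ℝ) ^ (k + 2)) ^ (2 - u) ≤ (q (k + 1) : ℝ) ^ (2 - u) :=
          Real.rpow_le_rpow (by positivity) (hk k).2.2.2.2.2.1 (by linarith)
        refine le_trans ?_ g1
        rw [← Real.rpow_natCast, ← Real.rpow_mul (by linarith)]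
        have g2 : 1 ≤ ((k + 2 : ℕ) : ℝ) * (2 - u) := by
          rw [div_le_iff₀ (by linarith)] at e2
          push_cast
          nlinarith
        have := Real.rpow_le_rpow_of_exponent_le (show (1 : ℝ) ≤ 18 * B k by linarith) g2
        rwa [Real.rpow_one] at this
      have s3 : (q (k + 1) : ℝ) ^ (-u) = (q (k + 1) : ℝ) ^ (2 - u) / q (k + 1) ^ 2 := by
        rw [← Real.rpow_natCast, ← Real.rpow_sub (by linarith)]; congr 1; push_cast; ring
      rw [s3]
      push_cast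
      calc (6 * B k : ℝ) * |ξ - α k| ≤ 6 * B k * (3 / q (k + 1) ^ 2) := by gcongr
        _ = 18 * B k / q (k + 1) ^ 2 := by ring
        _ ≤ _ := by gcongr
  · rintro ⟨H₀, hH₀⟩
    have hδ : 0 < (w - v) / 2 := by linarith
    have ev1 : ∀ᶠ k in Filter.atTop, (12 * 24 ^ w : ℝ) < (B k : ℝ) ^ ((w - v) / 2) :=
      ((tendsto_rpow_atTop hδ).comp hBt).eventually_gt_atTop _
    have ev2 : ∀ᶠ k : ℕ in Filter.atTop, 1 / ((w - v) / 2) ≤ (k : ℝ) :=
      tendsto_natCast_atTop_atTop.eventually_ge_atTop _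
    obtain ⟨k, e1, e2, e3⟩ := (ev1.and (ev2.and (hBt.eventually_ge_atTop (24 * H₀)))).exists
    obtain ⟨P, β, h, hI, hP2, hβ, hco, -, hh, hpos, hd⟩ := hH₀ (B k / 24) (by linarith)
    obtain ⟨u1, u2⟩ := Pool.Agent.MP_03368a_nt.unpack P hI.ne_zero hP2 β hβ
    have h1 := hA k _ _ _ h β u1 (hco 2) (hco 1) u2 hh
    have q2 := hq k
    have B1 := hB1 k
    have h0 : (0 : ℝ) < h := by
      by_contra hc
      have : (h : ℝ) * |ξ - β| ≤ 0 := mul_nonpos_of_nonpos_of_nonneg (not_lt.1 hc) hpos.le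
      have : 0 < 1 / (12 * B k * q k : ℝ) := by positivity
      linarith
    rw [← div_eq_inv_mul, le_div_iff₀ h0, mul_comm] at hd
    have h2 := h1.trans hd
    rw [Real.rpow_neg (by linarith), Real.div_rpow (by linarith) (by norm_num), inv_div,
      div_le_div_iff₀ (by positivity) (by positivity), one_mul] at h2
    have h3 : (q k : ℝ) ≤ (B k : ℝ) ^ (v - 1 + (w - v) / 2) := by
      refine (hk k).2.1.2.1.trans (Real.rpow_le_rpow_of_exponent_le B1 (max_le (by linarith) ?_))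
      rw [div_le_iff₀ hδ] at e2
      rw [div_le_iff₀ (by positivity)]
      nlinarith [(Nat.cast_nonneg k : (0 : ℝ) ≤ k)]
    have h4 : (B k : ℝ) ^ w =
        (B k : ℝ) ^ ((w - v) / 2) * (B k * (B k : ℝ) ^ (v - 1 + (w - v) / 2)) := by
      rw [← Real.rpow_one_add' (by linarith) (by linarith), ← Real.rpow_add (by linarith)]
      congr 1; ring
    have h5 : (12 * 24 ^ w : ℝ) * (B k * q k) <
        (B k : ℝ) ^ ((w - v) / 2) * (B k * (B k : ℝ) ^ (v - 1 + (w - v) / 2)) :=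
      mul_lt_mul e1 (by gcongr) (by positivity) (by positivity)
    linarith

end Pool.Agent.S15877
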