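import Pool.Statements.S16479
import Pool.Agent.MP_30e119_nt.Final

set_option autoImplicit false
open Pool Pool.MP_30e119_nt

namespace Pool.Agent.S16479

/-- With N(n) the number of Markov triples u≤v≤w≤n and C Zagier's constant (its defining series over strictly increasing Markov triples being summable), N(n) − C(ln 3n)² is o(ln n) as real n → ∞. -/
theorem result :
  ∀ g : ℝ → ℝ, (g = fun x : ℝ => Real.log ((3 * x + Real.sqrt (9 * x ^ 2 - 4)) / 2)) →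
  ∀ N : ℝ → ℝ, (∀ n : ℝ, N n =
      (((Finset.Icc 1 ⌊n⌋₊ ×ˢ Finset.Icc 1 ⌊n⌋₊ ×ˢ Finset.Icc 1 ⌊n⌋₊).filter
        (fun t : ℕ × ℕ × ℕ => t.1 ≤ t.2.1 ∧ t.2.1 ≤ t.2.2 ∧
          t.1 ^ 2 + t.2.1 ^ 2 + t.2.2 ^ 2 = 3 * t.1 * t.2.1 * t.2.2)).card : ℝ)) →
  ∀ C : ℝ, C = 3 / Real.pi ^ 2 * (1 / (g 1 * g 2) +
      ∑' t : {t : ℕ × ℕ × ℕ // 0 < t.1 ∧ t.1 < t.2.1 ∧ t.2.1 < t.2.2 ∧
          t.1 ^ 2 + t.2.1 ^ 2 + t.2.2 ^ 2 = 3 * t.1 * t.2.1 * t.2.2},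
        (g (t.1.1 : ℝ) + g (t.1.2.1 : ℝ) - g (t.1.2.2 : ℝ)) /
          (g (t.1.1 : ℝ) * g (t.1.2.1 : ℝ) * g (t.1.2.2 : ℝ))) →
  (Summable (fun t : {t : ℕ × ℕ × ℕ // 0 < t.1 ∧ t.1 < t.2.1 ∧ t.2.1 < t.2.2 ∧
          t.1 ^ 2 + t.2.1 ^ 2 + t.2.2 ^ 2 = 3 * t.1 * t.2.1 * t.2.2} =>
        (g (t.1.1 : ℝ) + g (t.1.2.1 : ℝ) - g (t.1.2.2 : ℝ)) /
          (g (t.1.1 : ℝ) * g (t.1.2.1 : ℝ) * g (t.1.2.2 : ℝ)))) ∧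
  Asymptotics.IsLittleO Filter.atTop
    (fun n : ℝ => N n - C * (Real.log (3 * n)) ^ 2)
    (fun n : ℝ => Real.log n) := by
  intro g hg N hN C hC
  have hg' : g = Pool.Agent.MP_30e119_nt.gg := hg
  subst hg'
  rw [hC, ← Pool.Agent.MP_30e119_nt.CC_eq]
  exact ⟨Pool.Agent.MP_30e119_nt.summable_term, Pool.Agent.MP_30e119_nt.main_est N hN⟩

end Pool.Agent.S16479
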