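import Pool.Statements.S16636

set_option autoImplicit false
open Pool Pool.MP_3c6bfc_nt

namespace Pool.Agent.S16636

open Polynomial

/-- Arbitrarily large solutions of the Pell equation `x^2 = 2 y^2 + 1`. -/
lemma pell (n : ℕ) : ∃ x y : ℕ, n + 2 ≤ x ∧ x ^ 2 = 2 * y ^ 2 + 1 := by
  induction n with
  | zero => exact ⟨3, 2, by norm_num, by norm_num⟩
  | succ n ih =>
    obtain ⟨x, y, h1, h2⟩ := ih
    refine ⟨3 * x + 4 * y, 2 * x + 3 * y, by omega, ?_⟩
    nlinarith

lemma height_le (P : Polynomial ℤ) (B : ℕ) (h : ∀ i, (P.coeff i).natAbs ≤ B) :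
    (P.support.sup fun i => (P.coeff i).natAbs) ≤ B :=
  Finset.sup_le fun i _ => h i

lemma one_le_height (P : Polynomial ℤ) (h : P.coeff 0 = 1) :
    1 ≤ (P.support.sup fun i => (P.coeff i).natAbs) := by
  have h0 : 0 ∈ P.support := by
    rw [mem_support_iff, h]; exact one_ne_zero
  have := Finset.le_sup (f := fun i => (P.coeff i).natAbs) h0
  simpa [h] using this

lemma prim_of_coeff_zero (P : Polynomial ℤ) (h : P.coeff 0 = 1) : P.IsPrimitive := by
  intro r hr
  have := (C_dvd_iff_dvd_coeff r P).1 hr 0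
  rw [h] at this
  exact isUnit_of_dvd_one this

/-- Counterexample: `K = ℚ(√2)`, `α = -1/(2x)`, `β = -x + y√2` with `x^2 - 2y^2 = 1`;
both heights are `2x` and `|α - β| ≤ 4 (2x)^(-3)`. -/
theorem result :
    ¬ (∀ K : IntermediateField ℚ ℂ, FiniteDimensional ℚ K →
      ∀ ε : ℝ, 0 < ε → ∃ c : ℝ, 0 < c ∧
        ∀ α β : K, α ≠ β →
          ∀ P Q : Polynomial ℤ, P.IsPrimitive → Q.IsPrimitive →
            Polynomial.aeval (α : ℂ) P = 0 → Polynomial.aeval (β : ℂ) Q = 0 →
            P.natDegree = (minpoly ℚ (α : ℂ)).natDegree →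
            Q.natDegree = (minpoly ℚ (β : ℂ)).natDegree →
            c * (max ((P.support.sup fun i => (P.coeff i).natAbs : ℕ) : ℝ)
                     ((Q.support.sup fun i => (Q.coeff i).natAbs : ℕ) : ℝ)) ^ (-2 - ε)
              < ‖(α : ℂ) - (β : ℂ)‖) := by
  intro H
  set s : ℂ := ((Real.sqrt 2 : ℝ) : ℂ) with hs
  have hs2 : s ^ 2 = 2 := by
    rw [hs, ← Complex.ofReal_pow, Real.sq_sqrt (by norm_num)]; norm_num
  have hint : IsIntegral ℚ s := by
    refine ⟨X ^ 2 - C 2, monic_X_pow_sub_C _ (by norm_num), ?_⟩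
    simp [hs2]
  obtain ⟨c, hc, H⟩ := H (IntermediateField.adjoin ℚ {s})
    (IntermediateField.adjoin.finiteDimensional hint) (1 / 2) (by norm_num)
  obtain ⟨n, hn⟩ := exists_nat_ge (16 / c ^ 2)
  obtain ⟨x, y, hx, hxy⟩ := pell n
  have hy : y ≠ 0 := by
    rintro rfl
    have : 2 ≤ x := by omega
    nlinarith
  have hx0 : (0 : ℝ) < x := by
    have : 0 < x := by omega
    exact_mod_cast this
  have hxyR : (x : ℝ) ^ 2 = 2 * (y : ℝ) ^ 2 + 1 := by exact_mod_cast hxy
  have hsK : s ∈ IntermediateField.adjoin ℚ {s} :=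
    IntermediateField.mem_adjoin_simple_self ℚ s
  -- the two numbers, as reals
  set a : ℝ := -1 / (2 * x) with ha
  set b : ℝ := y * Real.sqrt 2 - x with hb
  have hsq : Real.sqrt 2 ^ 2 = 2 := Real.sq_sqrt (by norm_num)
  have hbq : b ^ 2 + 2 * x * b + 1 = 0 := by
    rw [hb]; nlinarith
  have hbirr : Irrational b := by
    rw [hb]
    exact (irrational_sqrt_two.natCast_mul hy).sub_natCast x
  have haK : (a : ℂ) ∈ IntermediateField.adjoin ℚ {s} := by
    have : (a : ℂ) = algebraMap ℚ ℂ (-1 / (2 * x)) := by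
      rw [ha]; simp
    rw [this]; exact IntermediateField.algebraMap_mem _ _
  have hbK : (b : ℂ) ∈ IntermediateField.adjoin ℚ {s} := by
    have : (b : ℂ) = (y : ℂ) * s - (x : ℂ) := by
      rw [hb, hs]; push_cast; ring
    rw [this]
    exact sub_mem (mul_mem (natCast_mem _ _) hsK) (natCast_mem _ _)
  have hab : a ≠ b := by
    intro h
    apply hbirr
    refine ⟨-1 / (2 * x), ?_⟩
    rw [← h, ha]; push_cast; ring
  set P : Polynomial ℤ := C (2 * x : ℤ) * X + 1 with hP
  set Q : Polynomial ℤ := X ^ 2 + C (2 * x : ℤ) * X + 1 with hQ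
  have hP0 : P.coeff 0 = 1 := by simp [hP]
  have hQ0 : Q.coeff 0 = 1 := by simp [hQ]
  have hx1 : 1 ≤ x := by omega
  have hPh : ∀ i, (P.coeff i).natAbs ≤ 2 * x := by
    intro i
    rw [hP, coeff_add, coeff_C_mul, coeff_X, coeff_one]
    rcases i with _ | _ | i
    · simp; omega
    · simp; omega
    · simp
  have hQh : ∀ i, (Q.coeff i).natAbs ≤ 2 * x := by
    intro i
    rw [hQ, coeff_add, coeff_add, coeff_C_mul, coeff_X, coeff_one, coeff_X_pow]
    rcases i with _ | _ | _ | i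
    · simp; omega
    · simp; omega
    · simp; omega
    · simp
  have hPdeg : P.natDegree = 1 := by
    rw [hP]
    have : (2 * x : ℤ) ≠ 0 := by omega
    compute_degree!
    omega
  have hQdeg : Q.natDegree = 2 := by
    rw [hQ]; compute_degree!
  have hPa : Polynomial.aeval (a : ℂ) P = 0 := by
    have hx0' : (x : ℂ) ≠ 0 := by exact_mod_cast hx0.ne'
    rw [hP]
    simp only [map_add, aeval_X, map_mul, aeval_C, map_one]
    have : ((2 * x * a + 1 : ℝ) : ℂ) = 0 := by
      have : 2 * x * a + 1 = 0 := by rw [ha]; field_simp; ring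
      rw [this]; simp
    simpa using this
  have hQb : Polynomial.aeval (b : ℂ) Q = 0 := by
    rw [hQ]
    simp only [map_add, map_pow, aeval_X, map_mul, aeval_C, map_one]
    have : ((b ^ 2 + 2 * x * b + 1 : ℝ) : ℂ) = 0 := by rw [hbq]; simp
    simpa using this
  have hamin : (minpoly ℚ (a : ℂ)).natDegree = 1 := by
    have : (a : ℂ) = algebraMap ℚ ℂ (-1 / (2 * x)) := by
      rw [ha]; simp
    rw [this, minpoly.eq_X_sub_C]
    exact natDegree_X_sub_C _
  have hbmin : (minpoly ℚ (b : ℂ)).natDegree = 2 := by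
    set R : Polynomial ℚ := X ^ 2 + C (2 * x : ℚ) * X + 1 with hR
    have hRdeg : R.natDegree = 2 := by
      rw [hR]; compute_degree!
    have hRm : R.Monic := by
      rw [hR]; monicity!
    have hRb : Polynomial.aeval (b : ℂ) R = 0 := by
      rw [hR]
      simp only [map_add, map_pow, aeval_X, map_mul, aeval_C, map_one]
      have : ((b ^ 2 + 2 * x * b + 1 : ℝ) : ℂ) = 0 := by rw [hbq]; simp
      simpa using this
    have hbint : IsIntegral ℚ (b : ℂ) := ⟨R, hRm, hRb⟩
    apply le_antisymm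
    · rw [← hRdeg]
      exact natDegree_le_natDegree (minpoly.min ℚ _ hRm hRb)
    · rw [minpoly.two_le_natDegree_iff hbint]
      rintro ⟨q, hq⟩
      apply hbirr
      refine ⟨q, ?_⟩
      have : ((q : ℝ) : ℂ) = (b : ℂ) := by
        rw [← hq]; simp
      exact_mod_cast this
  have key := H ⟨a, haK⟩ ⟨b, hbK⟩ (by
      intro h
      apply hab
      have : (a : ℂ) = (b : ℂ) := congrArg Subtype.val h
      exact_mod_cast this) P Q (prim_of_coeff_zero P hP0) (prim_of_coeff_zero Q hQ0) hPa hQb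
    (by rw [hPdeg]; exact hamin.symm) (by rw [hQdeg]; exact hbmin.symm)
  set M : ℝ := max ((P.support.sup fun i => (P.coeff i).natAbs : ℕ) : ℝ)
    ((Q.support.sup fun i => (Q.coeff i).natAbs : ℕ) : ℝ) with hM
  have hM1 : 1 ≤ M := le_max_of_le_left (by exact_mod_cast one_le_height P hP0)
  have hM2 : M ≤ 2 * x := max_le (by exact_mod_cast height_le P _ hPh)
    (by exact_mod_cast height_le Q _ hQh)
  have hnorm : ‖(a : ℂ) - (b : ℂ)‖ = |a - b| := by
    rw [← Complex.ofReal_sub, Complex.norm_real, Real.norm_eq_abs]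
  simp only at key
  rw [hnorm] at key
  -- estimate of the distance
  have hsy : 0 ≤ (y : ℝ) * Real.sqrt 2 := by positivity
  have hbprod : b * (y * Real.sqrt 2 + x) = -1 := by
    rw [hb]; nlinarith
  have hbx : b ^ 2 * x ^ 2 ≤ 1 := by
    have h1 : b ^ 2 * (y * Real.sqrt 2 + x) ^ 2 = 1 := by
      rw [← mul_pow, hbprod]; norm_num
    have h2 : (x : ℝ) ^ 2 ≤ (y * Real.sqrt 2 + x) ^ 2 := by nlinarith
    nlinarith [sq_nonneg b]
  have hdiff : a - b = b ^ 2 / (2 * x) := by
    rw [ha]; field_simp; linarith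
  have hdist : |a - b| ≤ 4 / (2 * x) ^ 3 := by
    rw [hdiff, abs_of_nonneg (by positivity), div_le_div_iff₀ (by positivity) (by positivity)]
    nlinarith
  set t : ℝ := 2 * x with ht
  have ht0 : 0 < t := by positivity
  have hpow : t ^ (-2 - 1 / 2 : ℝ) ≤ M ^ (-2 - 1 / 2 : ℝ) :=
    Real.rpow_le_rpow_of_nonpos (by linarith) hM2 (by norm_num)
  have hsplit : t ^ (-2 - 1 / 2 : ℝ) = Real.sqrt t / t ^ 3 := by
    rw [Real.sqrt_eq_rpow, ← Real.rpow_natCast, ← Real.rpow_sub ht0]
    norm_num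
  have hsqrt : 4 / c ≤ Real.sqrt t := by
    apply Real.le_sqrt_of_sq_le
    have h1 : (n : ℝ) ≤ x := by
      have : n ≤ x := by omega
      exact_mod_cast this
    calc (4 / c) ^ 2 = (16 / c ^ 2 : ℝ) := by ring
      _ ≤ (n : ℝ) := hn
      _ ≤ t := by linarith
  have : 4 / t ^ 3 ≤ c * M ^ (-2 - 1 / 2 : ℝ) := by
    calc 4 / t ^ 3 = c * ((4 / c) / t ^ 3) := by field_simp
      _ ≤ c * (Real.sqrt t / t ^ 3) := by gcongr
      _ ≤ c * M ^ (-2 - 1 / 2 : ℝ) := by rw [← hsplit]; gcongr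
  linarith

end Pool.Agent.S16636
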