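import Pool.Statements.S19161
import Pool.Agent.MP_12d2c5_pr.Final

set_option autoImplicit false
open MeasureTheory
open Pool Pool.MP_12d2c5_pr

namespace Pool.Agent.S19161

/-- For every infinite connected locally finite transitive graph of growth degree d>8, every r≥1 and the USF law, almost surely the distance-r component graph of the forest has no automorphism other than the identity. -/
theorem result :
  ∀ (V : Type) (G : SimpleGraph V), Infinite V → G.Connected →
    (∀ v : V, (G.neighborSet v).Finite) →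
    (∀ x y : V, ∃ φ : G ≃g G, φ x = y) →
    ∀ d : ℝ, 8 < d →
    (∃ c C : ℝ, 0 < c ∧ c ≤ C ∧ ∀ (x : V) (n : ℕ), 1 ≤ n →
        c * (n : ℝ) ^ d ≤ ((({v | G.dist x v ≤ n} : Set V).ncard : ℕ) : ℝ) ∧
        ((({v | G.dist x v ≤ n} : Set V).ncard : ℕ) : ℝ) ≤ C * (n : ℝ) ^ d) →
    ∀ r : ℕ, 1 ≤ r →
    ∀ μ : Measure (Sym2 V → Bool), IsProbabilityMeasure μ →
    (∀ (o : V) (A : Finset (Sym2 V)), (↑A : Set (Sym2 V)) ⊆ G.edgeSet →
      Filter.Tendsto (fun n : ℕ =>
        (((({T : SimpleGraph ↥({v | G.dist o v ≤ n} : Set V) |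
              T ≤ G.induce ({v | G.dist o v ≤ n} : Set V) ∧ T.IsTree ∧
              ∀ e ∈ A, e ∈ (T.map (Function.Embedding.subtype _)).edgeSet}).ncard : ℕ) : ℝ) /
         ((({T : SimpleGraph ↥({v | G.dist o v ≤ n} : Set V) |
              T ≤ G.induce ({v | G.dist o v ≤ n} : Set V) ∧ T.IsTree}).ncard : ℕ) : ℝ)))
        Filter.atTop (nhds (μ {ω | ∀ e ∈ A, ω e = true}).toReal)) →
    ∀ᵐ ω ∂μ,
      ∀ φ : (SimpleGraph.fromRel (fun k₁ k₂ : (G ⊓ SimpleGraph.fromEdgeSet {e | ω e = true}).ConnectedComponent =>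
                ∃ u v : V, (G ⊓ SimpleGraph.fromEdgeSet {e | ω e = true}).connectedComponentMk u = k₁ ∧
                  (G ⊓ SimpleGraph.fromEdgeSet {e | ω e = true}).connectedComponentMk v = k₂ ∧
                  G.dist u v ≤ r)) ≃g
            (SimpleGraph.fromRel (fun k₁ k₂ : (G ⊓ SimpleGraph.fromEdgeSet {e | ω e = true}).ConnectedComponent =>
                ∃ u v : V, (G ⊓ SimpleGraph.fromEdgeSet {e | ω e = true}).connectedComponentMk u = k₁ ∧
                  (G ⊓ SimpleGraph.fromEdgeSet {e | ω e = true}).connectedComponentMk v = k₂ ∧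
                  G.dist u v ≤ r)),
        ∀ k, φ k = k := by
  intro V G h1 h2 h3 h4 d hd hc r hr μ hμ h
  have : Pool.Agent.MP_12d2c5_pr.Nice G := ⟨h1, h2, h3, h4⟩
  have hg : Pool.Agent.MP_12d2c5_pr.Growth G d := by
    obtain ⟨c, C, hc0, -, hc⟩ := hc
    refine ⟨c, C, hc0, fun n hn => ?_⟩
    have e : ({v | G.dist (Pool.Agent.MP_12d2c5_pr.org G) v ≤ n} : Set V).ncard =
        Pool.Agent.MP_12d2c5_pr.bl G n := Set.ncard_eq_toFinset_card _ _
    rw [← e]
    exact hc _ n hn
  have hm := Pool.Agent.MP_12d2c5_pr.measurable_mask G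
  have : IsProbabilityMeasure (μ.map (Pool.Agent.MP_12d2c5_pr.mask G)) :=
    Measure.isProbabilityMeasure_map hm.aemeasurable
  have key := ae_of_ae_map hm.aemeasurable
    ((Pool.Agent.MP_12d2c5_pr.flim_of_hyp h).rigid hg hd hr)
  filter_upwards [key] with ω hω
  rw [Pool.Agent.MP_12d2c5_pr.Fg_mask] at hω
  exact hω

end Pool.Agent.S19161
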